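import Pool.Agent.Lib_helper77.CP.Mixed

/-!
# MP_8a986b_co: exponential sums and the number of sets with equal invariants
-/

set_option autoImplicit false
set_option linter.unusedSectionVars false

open Finset

namespace Pool.Agent.Lib_helper77.CP

section expsum

variable {V : Type} [Fintype V] [DecidableEq V] {U : Finset V} {L q : ℕ} {v : Fin L → Fin q → V}
  {m : ℕ}

/-- the bound for the exponential sum -/
theorem exp_bound [NeZero m] (hm : 2 ≤ m) (h : GoodC U v) (hq : 2 ≤ q)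
    {Gh : Finset (Sym2 V) → ZMod m}
    (hQ1 : ∀ S ⊆ Eo U, q + 1 ≤ (vs S \ U).card → Gh S = 0)
    (hQ2 : ∀ l, ∃ a, Gh (Sla U v l a) ≠ 0) {η : ℝ} (hη : 0 ≤ η)
    (hη2 : (1 - 4 / (2 ^ (U.card * q) * 4 ^ np q * (m : ℝ) ^ 2)) ^ L ≤ η ^ (2 ^ np q)) :
    ‖∑ T ∈ (Eo U).powerset, (ZMod.stdAddChar (∑ S ∈ T.powerset, Gh S) : ℂ)‖
      ≤ (Eo U).powerset.card * η := by
  classical
  have hs : 1 ≤ np q := by
    obtain ⟨i, _⟩ := exists_type (q := q) (c := ⟨0, by omega⟩) (c' := ⟨1, by omega⟩)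
      (by simp [Fin.ext_iff])
    exact lt_of_le_of_lt (Nat.zero_le _) i.2
  let F : Finset (Sym2 V) → ℂ := fun T => ZMod.stdAddChar (∑ S ∈ T.powerset, Gh S)
  have hN : (0 : ℝ) < Fintype.card ((Fin (np q) × Fin L) ⊕ (Fin L × (U × Fin q)) → Bool) := by
    exact_mod_cast Fintype.card_pos
  have h1 := sum_ow (ed_inj h) (ed_mem h) F
  have h2 : ∀ T ∈ (Eo U).powerset, ‖∑ z, F (ow (ed U v) T z)‖
      ≤ Fintype.card ((Fin (np q) × Fin L) ⊕ (Fin L × (U × Fin q)) → Bool) * η := by
    intro T hT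
    rw [Finset.mem_powerset] at hT
    let e : (Fin L → U × Fin q → Bool) × (Fin (np q) → Fin L → Bool)
        ≃ ((Fin (np q) × Fin L) ⊕ (Fin L × (U × Fin q)) → Bool) :=
      { toFun := fun r => zz r.2 r.1
        invFun := fun z => (fun l k => z (Sum.inr (l, k)), fun i l => z (Sum.inl (i, l)))
        left_inv := fun r => rfl
        right_inv := fun z => by
          funext i
          rcases i with ⟨i, l⟩ | ⟨l, k⟩ <;> rfl }
    have h3 : ∑ z, F (ow (ed U v) T z)
        = Fintype.card ((Fin (np q) × Fin L) ⊕ (Fin L × (U × Fin q)) → Bool)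
          * av fun z => F (ow (ed U v) T z) := by
      unfold av
      rw [mul_div_cancel₀]
      exact_mod_cast hN.ne'
    rw [h3, norm_mul, Complex.norm_natCast]
    refine mul_le_mul_of_nonneg_left ?_ hN.le
    rw [av_equiv e, av_prod]
    have h4 := copies_bound hm (L := L) (s := np q) hs (K := U × Fin q)
      (fun x y => ∑ S ∈ (ow (ed U v) T (zz x y)).powerset, Gh S)
      (fun l => Dl v Gh l) (fun l => by
        obtain ⟨a, ha⟩ := hQ2 l
        exact Dl_ne ha)
      (fun p y => mixed h hq hQ1 hT p y)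
    have h5 : Fintype.card (U × Fin q) = U.card * q := by
      rw [Fintype.card_prod, Fintype.card_coe, Fintype.card_fin]
    rw [h5] at h4
    exact (pow_le_pow_iff_left₀ (norm_nonneg _) hη (by positivity)).1 (h4.trans hη2)
  have h6 : (Fintype.card ((Fin (np q) × Fin L) ⊕ (Fin L × (U × Fin q)) → Bool) : ℝ)
      * ‖∑ T ∈ (Eo U).powerset, F T‖
      ≤ Fintype.card ((Fin (np q) × Fin L) ⊕ (Fin L × (U × Fin q)) → Bool)
        * ((Eo U).powerset.card * η) := by
    have h7 := congrArg norm h1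
    rw [norm_mul, Complex.norm_natCast] at h7
    rw [h7]
    refine (norm_sum_le _ _).trans ((Finset.sum_le_sum h2).trans (le_of_eq ?_))
    rw [Finset.sum_const, nsmul_eq_mul]
    ring
  exact le_of_mul_le_mul_left h6 hN

end expsum

/-- the number of common zeros modulo `m` of several functions, by exponential sums -/
theorem stat_bound {X : Type} (P : Finset X) {m : ℕ} [NeZero m] (K : ℕ) (g : Fin K → X → ZMod m)
    {η : ℝ} (hη : 0 ≤ η)
    (h : ∀ t : Fin K → ZMod m, t ≠ 0 →
      ‖∑ T ∈ P, (ZMod.stdAddChar (∑ i, t i * g i T) : ℂ)‖ ≤ P.card * η) :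
    (((P.filter fun T => ∀ i, g i T = 0).card : ℕ) : ℝ) ≤ P.card * (((m : ℝ) ^ K)⁻¹ + η) := by
  classical
  have hm0 : (0 : ℝ) < m := by exact_mod_cast Nat.pos_of_ne_zero (NeZero.ne m)
  have hmc : (m : ℂ) ≠ 0 := by exact_mod_cast hm0.ne'
  have h1 : ∀ a : ZMod m, (∑ t : ZMod m, (ZMod.stdAddChar (t * a) : ℂ))
      = if a = 0 then (m : ℂ) else 0 := by
    intro a
    rw [AddChar.sum_mulShift a (ZMod.isPrimitive_stdAddChar m), ZMod.card]
    split_ifs <;> simp
  have h2 : ∀ T, (if (∀ i, g i T = 0) then ((m : ℂ) ^ K) else 0)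
      = ∑ t : Fin K → ZMod m, (ZMod.stdAddChar (∑ i, t i * g i T) : ℂ) := by
    intro T
    have h3 : ∀ t : Fin K → ZMod m, (ZMod.stdAddChar (∑ i, t i * g i T) : ℂ)
        = ∏ i, (ZMod.stdAddChar (t i * g i T) : ℂ) := fun t => char_sum _ _ _
    simp only [h3]
    rw [← Fintype.piFinset_univ, ← Finset.prod_univ_sum (fun _ : Fin K => (Finset.univ : Finset (ZMod m)))
      (fun i t => (ZMod.stdAddChar (t * g i T) : ℂ))]
    simp only [h1]
    by_cases h4 : ∀ i, g i T = 0
    · rw [if_pos h4, Finset.prod_congr rfl fun i _ => if_pos (h4 i), Finset.prod_const,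
        Finset.card_univ, Fintype.card_fin]
    · rw [if_neg h4]
      push Not at h4
      obtain ⟨i, hi⟩ := h4
      symm
      exact Finset.prod_eq_zero (Finset.mem_univ i) (if_neg hi)
  have h3 : (((P.filter fun T => ∀ i, g i T = 0).card : ℕ) : ℂ) * (m : ℂ) ^ K
      = ∑ t : Fin K → ZMod m, ∑ T ∈ P, (ZMod.stdAddChar (∑ i, t i * g i T) : ℂ) := by
    rw [Finset.sum_comm, ← Finset.sum_congr rfl fun T _ => h2 T, ← Finset.sum_filter,
      Finset.sum_const, nsmul_eq_mul]
  have h4 : (((P.filter fun T => ∀ i, g i T = 0).card : ℕ) : ℝ) * (m : ℝ) ^ K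
      ≤ P.card + (m : ℝ) ^ K * (P.card * η) := by
    have h5 := congrArg norm h3
    rw [norm_mul, Complex.norm_natCast, norm_pow, Complex.norm_natCast] at h5
    rw [h5, ← Finset.add_sum_erase _ _ (Finset.mem_univ (0 : Fin K → ZMod m))]
    refine (norm_add_le _ _).trans (add_le_add ?_ ?_)
    · simp
    · refine (norm_sum_le _ _).trans ?_
      refine (Finset.sum_le_sum fun t ht => h t (Finset.ne_of_mem_erase ht)).trans ?_
      rw [Finset.sum_const, nsmul_eq_mul]
      refine mul_le_mul_of_nonneg_right ?_ (by positivity)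
      have h6 : (Finset.univ.erase (0 : Fin K → ZMod m)).card ≤ m ^ K := by
        refine (Finset.card_le_univ _).trans (le_of_eq ?_)
        rw [Fintype.card_fun, ZMod.card, Fintype.card_fin]
      exact_mod_cast h6
  have hmK : (0 : ℝ) < (m : ℝ) ^ K := by positivity
  rw [mul_add]
  have h7 : (((P.filter fun T => ∀ i, g i T = 0).card : ℕ) : ℝ)
      ≤ (P.card + (m : ℝ) ^ K * (P.card * η)) / (m : ℝ) ^ K := (le_div_iff₀ hmK).2 h4
  refine h7.trans (le_of_eq ?_)
  field_simp

end Pool.Agent.Lib_helper77.CP
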