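import Pool.Agent.Lib_helper77.CP.Rank

/-!
# MP_8a986b_co: the number of proper colourings determines the alternating sums over the ranks (Whitney)
-/

set_option autoImplicit false
set_option linter.unusedSectionVars false

open Finset Polynomial

namespace Pool.Agent.Lib_helper77.CP

variable {V : Type} [Fintype V] [DecidableEq V]

/-- The number of proper colourings of the edge set `T` with colours `κ`. -/
noncomputable def col (T : Finset (Sym2 V)) (κ : Type) : ℕ :=
  Nat.card {c : V → κ // ∀ u v, s(u, v) ∈ T → c u ≠ c v}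

theorem col_congr (T : Finset (Sym2 V)) {κ κ' : Type} (e : κ ≃ κ') : col T κ = col T κ' := by
  refine Nat.card_congr (Equiv.subtypeEquiv (Equiv.arrowCongr (Equiv.refl V) e) ?_)
  intro c
  simp

theorem mono_iff {κ : Type} (c : V → κ) (u v : V) : (Sym2.map c s(u, v)).IsDiag ↔ c u = c v := by
  simp

theorem card_const (A : Finset (Sym2 V)) (t : ℕ) :
    Nat.card {c : V → (Fin t → ZMod 2) // ∀ u v, s(u, v) ∈ A → c u = c v} = (2 ^ t) ^ cc A := by
  let e : {c : V → (Fin t → ZMod 2) // ∀ u v, s(u, v) ∈ A → c u = c v} ≃ (Fin t → W A) :=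
    { toFun := fun c i => ⟨fun v => c.1 v i, fun u v h => congrFun (c.2 u v h) i⟩
      invFun := fun g => ⟨fun v i => (g i).1 v, fun u v h => funext fun i => (g i).2 u v h⟩
      left_inv := fun c => rfl
      right_inv := fun g => rfl }
  rw [Nat.card_congr e, Nat.card_fun, Module.natCard_eq_pow_finrank (K := ZMod 2), Nat.card_fin,
    Nat.card_zmod, ← pow_mul, ← pow_mul, mul_comm]
  rfl

theorem whitney (T : Finset (Sym2 V)) (κ : Type) [Fintype κ] [DecidableEq κ] :
    (col T κ : ℤ) = ∑ A ∈ T.powerset,
      (-1) ^ A.card * (Nat.card {c : V → κ // ∀ u v, s(u, v) ∈ A → c u = c v} : ℤ) := by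
  classical
  have h1 : ∀ A : Finset (Sym2 V), (Nat.card {c : V → κ // ∀ u v, s(u, v) ∈ A → c u = c v} : ℤ)
      = ∑ c : V → κ, if (∀ e ∈ A, (Sym2.map c e).IsDiag) then 1 else 0 := by
    intro A
    rw [Nat.card_eq_fintype_card, Fintype.card_subtype, Finset.card_filter]
    push_cast
    refine Finset.sum_congr rfl fun c _ => ?_
    congr 1
    rw [eq_iff_iff]
    constructor
    · intro h e
      induction e with
      | _ u v => intro he; exact (mono_iff c u v).2 (h u v he)
    · intro h u v he
      exact (mono_iff c u v).1 (h _ he)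
  have h2 : (col T κ : ℤ)
      = ∑ c : V → κ, if (∀ e ∈ T, ¬ (Sym2.map c e).IsDiag) then 1 else 0 := by
    rw [col, Nat.card_eq_fintype_card, Fintype.card_subtype, Finset.card_filter]
    push_cast
    refine Finset.sum_congr rfl fun c _ => ?_
    congr 1
    rw [eq_iff_iff]
    constructor
    · intro h e
      induction e with
      | _ u v => intro he hd; exact h u v he ((mono_iff c u v).1 hd)
    · intro h u v he hd
      exact h _ he ((mono_iff c u v).2 hd)
  simp only [h1]
  rw [h2]
  simp only [Finset.mul_sum]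
  rw [Finset.sum_comm]
  refine Finset.sum_congr rfl fun c _ => ?_
  have h3 : (if (∀ e ∈ T, ¬ (Sym2.map c e).IsDiag) then (1 : ℤ) else 0)
      = ∏ e ∈ T, ((if (Sym2.map c e).IsDiag then (-1 : ℤ) else 0) + 1) := by
    by_cases h : ∀ e ∈ T, ¬ (Sym2.map c e).IsDiag
    · rw [if_pos h]
      symm
      apply Finset.prod_eq_one
      intro e he
      rw [if_neg (h e he), zero_add]
    · rw [if_neg h]
      push Not at h
      obtain ⟨e, he, hd⟩ := h
      symm
      apply Finset.prod_eq_zero he
      rw [if_pos hd]; norm_num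
  rw [h3, Finset.prod_add]
  refine Finset.sum_congr rfl fun A _ => ?_
  rw [Finset.prod_const_one, mul_one]
  by_cases h : ∀ e ∈ A, (Sym2.map c e).IsDiag
  · rw [if_pos h, mul_one]
    rw [Finset.prod_congr rfl (g := fun _ => (-1 : ℤ)) (fun e he => by rw [if_pos (h e he)]),
      Finset.prod_const]
  · rw [if_neg h, mul_zero]
    push Not at h
    obtain ⟨e, he, hd⟩ := h
    exact Finset.prod_eq_zero he (by rw [if_neg hd])

/-- The chromatic polynomial. -/
noncomputable def chromP (T : Finset (Sym2 V)) : ℤ[X] := ∑ A ∈ T.powerset, C ((-1) ^ A.card) * X ^ cc A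

theorem eval_chromP (T : Finset (Sym2 V)) (t : ℕ) :
    (chromP T).eval ((2 : ℤ) ^ t) = col T (Fin (2 ^ t)) := by
  have e : Fin (2 ^ t) ≃ (Fin t → ZMod 2) :=
    Fintype.equivOfCardEq (by simp)
  rw [col_congr T e, whitney, chromP, Polynomial.eval_finsetSum]
  refine Finset.sum_congr rfl fun A _ => ?_
  rw [card_const]
  simp

/-- Two edge sets with the same numbers of proper colourings have the same signed rank counts. -/
theorem rank_sum_eq {T T' : Finset (Sym2 V)} (h : ∀ k, col T (Fin k) = col T' (Fin k)) (i : ℕ) :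
    ∑ A ∈ T.powerset, (if rk A = i then (-1 : ℤ) ^ A.card else 0)
      = ∑ A ∈ T'.powerset, (if rk A = i then (-1 : ℤ) ^ A.card else 0) := by
  have hP : chromP T = chromP T' := by
    refine Polynomial.eq_of_infinite_eval_eq _ _ ?_
    refine Set.Infinite.mono (s := Set.range fun t : ℕ => (2 : ℤ) ^ t) ?_ ?_
    · rintro _ ⟨t, rfl⟩
      simp only [Set.mem_ofPred_eq]
      rw [eval_chromP, eval_chromP, h]
    · refine Set.infinite_range_of_injective ?_
      intro a b hab
      exact (pow_right_injective₀ (by norm_num : (0 : ℤ) < 2) (by norm_num)) hab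
  have hco : ∀ T : Finset (Sym2 V), ∀ i ≤ Fintype.card V,
      ∑ A ∈ T.powerset, (if rk A = i then (-1 : ℤ) ^ A.card else 0)
        = (chromP T).coeff (Fintype.card V - i) := by
    intro T i hi
    rw [chromP, Polynomial.finsetSum_coeff]
    refine Finset.sum_congr rfl fun A _ => ?_
    rw [Polynomial.coeff_C_mul, Polynomial.coeff_X_pow]
    have h1 := rk_add_cc A
    by_cases h2 : rk A = i
    · rw [if_pos h2, if_pos (by omega), mul_one]
    · rw [if_neg h2, if_neg (by omega), mul_zero]
  rcases le_or_gt i (Fintype.card V) with hi | hi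
  · rw [hco T i hi, hco T' i hi, hP]
  · rw [Finset.sum_eq_zero, Finset.sum_eq_zero]
    · intro A _
      rw [if_neg]; have := rk_le A; omega
    · intro A _
      rw [if_neg]; have := rk_le A; omega

end Pool.Agent.Lib_helper77.CP
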