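import Mathlib

/-!
# Moebius transforms of functions of finite sets
-/

set_option autoImplicit false
set_option linter.unusedSectionVars false

open Finset

namespace Pool.Agent.Lib_helper77.CP

variable {E : Type} [DecidableEq E] {R : Type} [CommRing R]

/-- The Moebius transform of `g`: `g T` is the sum of `mob g S` over the subsets `S` of `T`. -/
noncomputable def mob (g : Finset E → R) : Finset E → R :=
  Finset.strongInduction fun S ih =>
    g S - ∑ T ∈ S.ssubsets.attach, ih T.1 (Finset.mem_ssubsets.1 T.2)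

theorem mob_eq (g : Finset E → R) (S : Finset E) : mob g S = g S - ∑ T ∈ S.ssubsets, mob g T := by
  have h : mob g S = g S - ∑ T ∈ S.ssubsets.attach, mob g T.1 := by
    unfold mob
    rw [Finset.strongInduction_eq]
  rw [h, Finset.sum_attach S.ssubsets (fun T => mob g T)]

theorem sum_powerset_eq (f : Finset E → R) (T : Finset E) :
    ∑ S ∈ T.powerset, f S = f T + ∑ S ∈ T.ssubsets, f S := by
  rw [Finset.ssubsets, Finset.add_sum_erase _ _ (Finset.mem_powerset_self T)]

theorem sum_mob (g : Finset E → R) (T : Finset E) : ∑ S ∈ T.powerset, mob g S = g T := by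
  rw [sum_powerset_eq, mob_eq, sub_add_cancel]

theorem mob_unique {g a : Finset E → R} {T0 : Finset E}
    (h : ∀ T ⊆ T0, g T = ∑ S ∈ T.powerset, a S) : ∀ S ⊆ T0, a S = mob g S := by
  intro S
  induction S using Finset.strongInduction with
  | H S ih =>
    intro hS
    have h1 := h S hS
    rw [sum_powerset_eq] at h1
    rw [mob_eq, h1, Finset.sum_congr rfl (fun T hT => ih T (Finset.mem_ssubsets.1 hT)
      ((Finset.mem_ssubsets.1 hT).1.trans hS)), add_sub_cancel_right]

/-- The pairs with union `S`. -/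
def prs (S : Finset E) : Finset (Finset E × Finset E) :=
  (S.powerset ×ˢ S.powerset).filter fun p => p.1 ∪ p.2 = S

theorem mem_prs {S : Finset E} {p : Finset E × Finset E} : p ∈ prs S ↔ p.1 ∪ p.2 = S := by
  simp only [prs, Finset.mem_filter, Finset.mem_product, Finset.mem_powerset]
  constructor
  · rintro ⟨_, h⟩; exact h
  · intro h
    exact ⟨⟨h ▸ Finset.subset_union_left, h ▸ Finset.subset_union_right⟩, h⟩

theorem sum_mul_sum (a b : Finset E → R) (T : Finset E) :
    (∑ S ∈ T.powerset, a S) * (∑ S ∈ T.powerset, b S)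
      = ∑ S ∈ T.powerset, ∑ p ∈ prs S, a p.1 * b p.2 := by
  rw [Finset.sum_mul_sum, ← Finset.sum_product',
    ← Finset.sum_fiberwise_of_maps_to (s := T.powerset ×ˢ T.powerset) (t := T.powerset)
      (g := fun p => p.1 ∪ p.2)]
  · refine Finset.sum_congr rfl fun S hS => ?_
    refine Finset.sum_congr ?_ fun _ _ => rfl
    ext p
    rw [mem_prs, Finset.mem_filter]
    constructor
    · rintro ⟨_, h⟩; exact h
    · intro h
      refine ⟨?_, h⟩
      rw [Finset.mem_powerset] at hS
      rw [Finset.mem_product, Finset.mem_powerset, Finset.mem_powerset]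
      exact ⟨(h ▸ Finset.subset_union_left).trans hS, (h ▸ Finset.subset_union_right).trans hS⟩
  · intro p hp
    rw [Finset.mem_product, Finset.mem_powerset, Finset.mem_powerset] at hp
    rw [Finset.mem_powerset]
    exact Finset.union_subset hp.1 hp.2

theorem mob_mul {g h a b : Finset E → R} (hg : ∀ T, g T = ∑ S ∈ T.powerset, a S)
    (hh : ∀ T, h T = ∑ S ∈ T.powerset, b S) (S : Finset E) :
    mob (fun T => g T * h T) S = ∑ p ∈ prs S, a p.1 * b p.2 := by
  symm
  refine mob_unique (R := R) (g := fun T => g T * h T) (a := fun S => ∑ p ∈ prs S, a p.1 * b p.2)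
    (T0 := S) (fun T _ => ?_) S (Finset.Subset.refl S)
  show g T * h T = _
  rw [hg, hh, sum_mul_sum]

theorem mob_one {S : Finset E} (hS : S ≠ ∅) : mob (fun _ => (1 : R)) S = 0 := by
  have h : ∀ T ⊆ S, (1 : R) = ∑ S' ∈ T.powerset, (if S' = ∅ then (1 : R) else 0) := by
    intro T _
    rw [Finset.sum_ite_eq' , if_pos (Finset.empty_mem_powerset T)]
  have h1 := mob_unique (R := R) (g := fun _ => (1 : R))
    (a := fun S' => if S' = ∅ then (1 : R) else 0) h S (Finset.Subset.refl S)
  rw [← h1]
  exact if_neg hS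

theorem sum_powerset_union {T1 T2 : Finset E} (h : Disjoint T1 T2) (f : Finset E → R) :
    ∑ A ∈ (T1 ∪ T2).powerset, f A = ∑ A ∈ T1.powerset, ∑ B ∈ T2.powerset, f (A ∪ B) := by
  rw [← Finset.sum_product']
  refine Finset.sum_bij' (fun A _ => (A ∩ T1, A ∩ T2)) (fun p _ => p.1 ∪ p.2) ?_ ?_ ?_ ?_ ?_
  · intro A _
    rw [Finset.mem_product, Finset.mem_powerset, Finset.mem_powerset]
    exact ⟨Finset.inter_subset_right, Finset.inter_subset_right⟩
  · intro p hp
    rw [Finset.mem_product, Finset.mem_powerset, Finset.mem_powerset] at hp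
    rw [Finset.mem_powerset]
    exact Finset.union_subset_union hp.1 hp.2
  · intro A hA
    rw [Finset.mem_powerset] at hA
    show A ∩ T1 ∪ A ∩ T2 = A
    rw [← Finset.inter_union_distrib_left, Finset.inter_eq_left.2 hA]
  · intro p hp
    rw [Finset.mem_product, Finset.mem_powerset, Finset.mem_powerset] at hp
    obtain ⟨A, B⟩ := p
    obtain ⟨hA, hB⟩ := hp
    have h1 : B ∩ T1 = ∅ := by
      rw [← Finset.disjoint_iff_inter_eq_empty]
      exact (h.mono_right hB).symm
    have h2 : A ∩ T2 = ∅ := by
      rw [← Finset.disjoint_iff_inter_eq_empty]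
      exact h.mono_left hA
    show ((A ∪ B) ∩ T1, (A ∪ B) ∩ T2) = (A, B)
    rw [Finset.union_inter_distrib_right, Finset.union_inter_distrib_right, h1, h2,
      Finset.inter_eq_left.2 hA, Finset.inter_eq_left.2 hB, Finset.union_empty, Finset.empty_union]
  · intro A hA
    rw [Finset.mem_powerset] at hA
    show f A = f (A ∩ T1 ∪ A ∩ T2)
    rw [← Finset.inter_union_distrib_left, Finset.inter_eq_left.2 hA]

end Pool.Agent.Lib_helper77.CP
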