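import Pool.Agent.Lib_helper77.CP.Chrom
import Pool.Agent.Lib_helper77.CP.Mob

/-!
# MP_8a986b_co: local invariants of the chromatic polynomial (power sums of the chromatic roots)

`lam j T` is an integer that is determined by the numbers of proper colourings of `T`; its Moebius transform
`lh j S` vanishes if `S` touches more than `j + 1` vertices and is `± j` on the complete graph with `j + 1` vertices.
-/

set_option autoImplicit false
set_option linter.unusedSectionVars false

open Finset PowerSeries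

namespace Pool.Agent.Lib_helper77.CP

variable {V : Type} [Fintype V] [DecidableEq V]

/-- The weight of an edge set. -/
noncomputable def zeta (A : Finset (Sym2 V)) : ℤ⟦X⟧ :=
  if (∀ e ∈ A, ¬ e.IsDiag) then (-1) ^ A.card * X ^ rk A else 0

/-- The reversed chromatic polynomial. -/
noncomputable def Zs (T : Finset (Sym2 V)) : ℤ⟦X⟧ := ∑ A ∈ T.powerset, zeta A

/-- Its Euler derivative. -/
noncomputable def Th (T : Finset (Sym2 V)) : ℤ⟦X⟧ := ∑ A ∈ T.powerset, (rk A : ℤ⟦X⟧) * zeta A

theorem zeta_empty : zeta (∅ : Finset (Sym2 V)) = 1 := by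
  simp [zeta, rk_empty]

theorem zeta_dvd (A : Finset (Sym2 V)) : X ^ rk A ∣ zeta A := by
  unfold zeta
  split_ifs
  · exact Dvd.intro_left _ rfl
  · exact dvd_zero _

/-- A nonempty edge set has positive rank. -/
theorem rk_pos {A : Finset (Sym2 V)} (hA : A ≠ ∅) (hd : ∀ e ∈ A, ¬ e.IsDiag) : 1 ≤ rk A := by
  obtain ⟨e, he⟩ := Finset.nonempty_iff_ne_empty.2 hA
  induction e with
  | _ u v =>
    have huv : u ≠ v := fun h => hd _ he (by rw [Sym2.mk_isDiag_iff]; exact h)
    by_contra h0
    have h1 : rk A + 1 < ({u, v} : Finset V).card := by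
      rw [Finset.card_pair huv]; omega
    obtain ⟨f, hf, a, ha, b, hb, hab⟩ := exists_nonconst h1
    have h2 := hf u v he
    simp only [Finset.mem_insert, Finset.mem_singleton] at ha hb
    rcases ha with rfl | rfl <;> rcases hb with rfl | rfl <;> simp_all

theorem constantCoeff_Zs (T : Finset (Sym2 V)) : constantCoeff (Zs T) = 1 := by
  rw [Zs, map_sum, Finset.sum_eq_single ∅]
  · rw [zeta_empty, map_one]
  · intro A _ hA
    unfold zeta
    split_ifs with h
    · have := rk_pos hA h
      rw [map_mul, map_pow, map_pow, constantCoeff_X, zero_pow (by omega), mul_zero]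
    · exact map_zero _
  · intro h
    exact absurd (Finset.empty_mem_powerset T) h

/-- The inverse series. -/
noncomputable def Wi (T : Finset (Sym2 V)) : ℤ⟦X⟧ := invOfUnit (Zs T) 1

theorem Zs_mul_Wi (T : Finset (Sym2 V)) : Zs T * Wi T = 1 :=
  mul_invOfUnit _ _ (by rw [constantCoeff_Zs, Units.val_one])

/-- The logarithmic derivative. -/
noncomputable def La (T : Finset (Sym2 V)) : ℤ⟦X⟧ := Th T * Wi T

theorem mobWi_dvd (S : Finset (Sym2 V)) : X ^ rk S ∣ mob Wi S := by
  induction S using Finset.strongInduction with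
  | H S ih =>
    rcases eq_or_ne S ∅ with rfl | hS
    · rw [rk_empty, pow_zero]; exact one_dvd _
    · have h1 : ∑ p ∈ prs S, zeta p.1 * mob Wi p.2 = 0 := by
        rw [← mob_mul (g := Zs) (h := Wi) (fun _ => rfl) (fun T => (sum_mob Wi T).symm) S]
        have : (fun T : Finset (Sym2 V) => Zs T * Wi T) = fun _ => 1 := by
          funext T; exact Zs_mul_Wi T
        rw [this, mob_one hS]
      rw [← Finset.sum_filter_add_sum_filter_not (prs S) (fun p => p.2 = S)] at h1
      have h2 : ∑ p ∈ (prs S).filter (fun p => p.2 = S), zeta p.1 * mob Wi p.2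
          = Zs S * mob Wi S := by
        rw [Zs, Finset.sum_mul]
        refine Finset.sum_bij' (fun p _ => p.1) (fun A _ => (A, S)) ?_ ?_ ?_ ?_ ?_
        · intro p hp
          rw [Finset.mem_filter, mem_prs] at hp
          rw [Finset.mem_powerset, ← hp.1]
          exact Finset.subset_union_left
        · intro A hA
          rw [Finset.mem_powerset] at hA
          rw [Finset.mem_filter, mem_prs]
          exact ⟨Finset.union_eq_right.2 hA, rfl⟩
        · rintro ⟨A, B⟩ hp
          rw [Finset.mem_filter, mem_prs] at hp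
          have h9 : B = S := hp.2
          show (A, S) = (A, B)
          rw [h9]
        · intro A _; rfl
        · rintro ⟨A, B⟩ hp
          rw [Finset.mem_filter, mem_prs] at hp
          have h9 : B = S := hp.2
          show zeta A * mob Wi B = zeta A * mob Wi S
          rw [h9]
      have h3 : X ^ rk S ∣ ∑ p ∈ (prs S).filter (fun p => ¬ p.2 = S), zeta p.1 * mob Wi p.2 := by
        refine Finset.dvd_sum fun p hp => ?_
        rw [Finset.mem_filter, mem_prs] at hp
        obtain ⟨h4, h5⟩ := hp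
        have h6 : p.2 ⊂ S := Finset.ssubset_iff_subset_ne.2 ⟨h4 ▸ Finset.subset_union_right, h5⟩
        have h7 := mul_dvd_mul (zeta_dvd p.1) (ih p.2 h6)
        rw [← pow_add] at h7
        refine dvd_trans (pow_dvd_pow X ?_) h7
        rw [← h4]
        exact rk_union_le _ _
      rw [h2] at h1
      have h4 : Zs S * mob Wi S
          = - ∑ p ∈ (prs S).filter (fun p => ¬ p.2 = S), zeta p.1 * mob Wi p.2 :=
        eq_neg_of_add_eq_zero_left h1
      have h5 : X ^ rk S ∣ Zs S * mob Wi S := by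
        rw [h4]; exact (dvd_neg).2 h3
      have h6 : mob Wi S = Wi S * (Zs S * mob Wi S) := by
        rw [← mul_assoc, mul_comm (Wi S), Zs_mul_Wi, one_mul]
      rw [h6]
      exact Dvd.dvd.mul_left h5 _

theorem mobLa_eq (S : Finset (Sym2 V)) :
    mob La S = ∑ p ∈ prs S, ((rk p.1 : ℤ⟦X⟧) * zeta p.1) * mob Wi p.2 :=
  mob_mul (g := Th) (h := Wi) (fun _ => rfl) (fun T => (sum_mob Wi T).symm) S

theorem mobLa_dvd (S : Finset (Sym2 V)) : X ^ rk S ∣ mob La S := by
  rw [mobLa_eq]
  refine Finset.dvd_sum fun p hp => ?_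
  rw [mem_prs] at hp
  have h7 := mul_dvd_mul (Dvd.dvd.mul_left (zeta_dvd p.1) (rk p.1 : ℤ⟦X⟧)) (mobWi_dvd p.2)
  rw [← pow_add] at h7
  refine dvd_trans (pow_dvd_pow X ?_) h7
  rw [← hp]
  exact rk_union_le _ _

/-! ### additivity -/

theorem disjoint_of_vs {A B : Finset (Sym2 V)} (h : Disjoint (vs A) (vs B)) : Disjoint A B := by
  rw [Finset.disjoint_left]
  intro e h1 h2
  induction e with
  | _ u v => exact Finset.disjoint_left.1 h (mem_vs_left h1) (mem_vs_left h2)

theorem zeta_union {A B : Finset (Sym2 V)} (h : Disjoint (vs A) (vs B)) :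
    zeta (A ∪ B) = zeta A * zeta B := by
  unfold zeta
  rw [rk_disjoint h, Finset.card_union_of_disjoint (disjoint_of_vs h)]
  by_cases hA : ∀ e ∈ A, ¬ e.IsDiag
  · by_cases hB : ∀ e ∈ B, ¬ e.IsDiag
    · rw [if_pos hA, if_pos hB, if_pos]
      · ring
      · intro e he
        rcases Finset.mem_union.1 he with h1 | h1
        · exact hA e h1
        · exact hB e h1
    · rw [if_neg hB, mul_zero, if_neg]
      intro h1; exact hB fun e he => h1 e (Finset.mem_union_right _ he)
  · rw [if_neg hA, zero_mul, if_neg]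
    intro h1; exact hA fun e he => h1 e (Finset.mem_union_left _ he)

theorem Zs_union {A B : Finset (Sym2 V)} (h : Disjoint (vs A) (vs B)) :
    Zs (A ∪ B) = Zs A * Zs B := by
  unfold Zs
  rw [sum_powerset_union (disjoint_of_vs h), Finset.sum_mul_sum]
  refine Finset.sum_congr rfl fun A' hA => Finset.sum_congr rfl fun B' hB => ?_
  rw [Finset.mem_powerset] at hA hB
  exact zeta_union (Finset.disjoint_of_subset_left (vs_mono hA)
    (Finset.disjoint_of_subset_right (vs_mono hB) h))

theorem Th_union {A B : Finset (Sym2 V)} (h : Disjoint (vs A) (vs B)) :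
    Th (A ∪ B) = Th A * Zs B + Zs A * Th B := by
  unfold Th Zs
  rw [sum_powerset_union (disjoint_of_vs h), Finset.sum_mul_sum, Finset.sum_mul_sum,
    ← Finset.sum_add_distrib]
  refine Finset.sum_congr rfl fun A' hA => ?_
  rw [← Finset.sum_add_distrib]
  refine Finset.sum_congr rfl fun B' hB => ?_
  rw [Finset.mem_powerset] at hA hB
  have h1 : Disjoint (vs A') (vs B') := Finset.disjoint_of_subset_left (vs_mono hA)
    (Finset.disjoint_of_subset_right (vs_mono hB) h)
  rw [zeta_union h1, rk_disjoint h1]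
  push_cast
  ring

theorem Wi_union {A B : Finset (Sym2 V)} (h : Disjoint (vs A) (vs B)) :
    Wi (A ∪ B) = Wi A * Wi B := by
  have h1 := Zs_mul_Wi (A ∪ B)
  rw [Zs_union h] at h1
  have h2 := Zs_mul_Wi A
  have h3 := Zs_mul_Wi B
  calc Wi (A ∪ B) = (Zs A * Wi A) * (Zs B * Wi B) * Wi (A ∪ B) := by rw [h2, h3]; ring
    _ = (Zs A * Zs B * Wi (A ∪ B)) * (Wi A * Wi B) := by ring
    _ = Wi A * Wi B := by rw [h1, one_mul]

theorem La_union {A B : Finset (Sym2 V)} (h : Disjoint (vs A) (vs B)) :
    La (A ∪ B) = La A + La B := by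
  unfold La
  rw [Th_union h, Wi_union h]
  have h2 := Zs_mul_Wi A
  have h3 := Zs_mul_Wi B
  calc (Th A * Zs B + Zs A * Th B) * (Wi A * Wi B)
      = Th A * Wi A * (Zs B * Wi B) + (Zs A * Wi A) * (Th B * Wi B) := by ring
    _ = _ := by rw [h2, h3]; ring

/-- The transform vanishes on edge sets that split. -/
theorem mobLa_split {S1 S2 : Finset (Sym2 V)} (h1 : S1.Nonempty) (h2 : S2.Nonempty)
    (h : Disjoint (vs S1) (vs S2)) : mob La (S1 ∪ S2) = 0 := by
  have hd := disjoint_of_vs h
  have key : ∀ T ⊆ S1 ∪ S2, La T = ∑ S ∈ T.powerset,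
      ((if S ⊆ S1 then mob La S else 0) + (if S ⊆ S2 then mob La S else 0)) := by
    intro T hT
    have h3 : T = (T ∩ S1) ∪ (T ∩ S2) := by
      rw [← Finset.inter_union_distrib_left, Finset.inter_eq_left.2 hT]
    have h4 : ∀ S' : Finset (Sym2 V), ∑ S ∈ T.powerset, (if S ⊆ S' then mob La S else 0)
        = La (T ∩ S') := by
      intro S'
      rw [← Finset.sum_filter, ← sum_mob La (T ∩ S')]
      refine Finset.sum_congr ?_ fun _ _ => rfl
      ext S
      rw [Finset.mem_filter, Finset.mem_powerset, Finset.mem_powerset, Finset.subset_inter_iff]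
    rw [Finset.sum_add_distrib, h4, h4]
    conv_lhs => rw [h3]
    exact La_union (Finset.disjoint_of_subset_left (vs_mono Finset.inter_subset_right)
      (Finset.disjoint_of_subset_right (vs_mono Finset.inter_subset_right) h))
  have h5 := mob_unique key (S1 ∪ S2) (Finset.Subset.refl _)
  rw [← h5]
  rw [if_neg, if_neg, add_zero]
  · intro h6
    obtain ⟨e, he⟩ := h1
    exact Finset.disjoint_left.1 hd he (h6 (Finset.mem_union_left _ he))
  · intro h6
    obtain ⟨e, he⟩ := h2
    exact Finset.disjoint_left.1 hd (h6 (Finset.mem_union_right _ he)) he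

/-! ### the invariants -/

/-- The local invariant. -/
noncomputable def lam (j : ℕ) (T : Finset (Sym2 V)) : ℤ := coeff j (La T)

/-- Its Moebius transform. -/
noncomputable def lh (j : ℕ) (S : Finset (Sym2 V)) : ℤ := coeff j (mob La S)

theorem lam_eq (j : ℕ) (T : Finset (Sym2 V)) : lam j T = ∑ S ∈ T.powerset, lh j S := by
  unfold lam lh
  rw [← map_sum, sum_mob]

theorem lh_zero {j : ℕ} {S : Finset (Sym2 V)} (h : j + 2 ≤ (vs S).card) : lh j S = 0 := by
  by_cases h1 : rk S + 1 < (vs S).card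
  · obtain ⟨S1, S2, h2, h3, rfl, h4⟩ := exists_split h1
    rw [lh, mobLa_split h2 h3 h4, map_zero]
  · exact PowerSeries.X_pow_dvd_iff.1 (mobLa_dvd S) j (by omega)

/-- The edges of the complete graph on `Y`. -/
def KE (Y : Finset V) : Finset (Sym2 V) := Y.sym2.filter fun e => ¬ e.IsDiag

theorem mem_KE {Y : Finset V} {u v : V} : s(u, v) ∈ KE Y ↔ u ∈ Y ∧ v ∈ Y ∧ u ≠ v := by
  rw [KE, Finset.mem_filter, Finset.mk_mem_sym2_iff, Sym2.mk_isDiag_iff]
  tauto

theorem vs_KE {Y : Finset V} : vs (KE Y) ⊆ Y := by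
  intro v hv
  obtain ⟨e, he, hve⟩ := mem_vs.1 hv
  induction e with
  | _ a b =>
    rw [mem_KE] at he
    rcases Sym2.mem_iff.1 hve with rfl | rfl
    · exact he.1
    · exact he.2.1

theorem lh_KE {j : ℕ} {Y : Finset V} (hY : Y.card = j + 1) :
    lh j (KE Y) = (-1) ^ (KE Y).card * j := by
  have hYn : Y.Nonempty := Finset.card_pos.1 (by omega)
  have hor : ∀ A B : Finset (Sym2 V), A ∪ B = KE Y → j ≤ rk A ∨ j ≤ rk B := by
    intro A B hAB
    have := rk_or (A := A) (B := B) (Y := Y) (fun u hu v hv huv => by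
      rw [hAB, mem_KE]; exact ⟨hu, hv, huv⟩)
    omega
  have hrk : rk (KE Y) = j := by
    have h1 := hor (KE Y) (KE Y) (Finset.union_idempotent _)
    have h2 := rk_le_of_vs hYn (A := KE Y) vs_KE
    omega
  have hdiag : ∀ e ∈ KE Y, ¬ e.IsDiag := fun e he => (Finset.mem_filter.1 he).2
  rw [lh, mobLa_eq, map_sum, Finset.sum_eq_single (KE Y, ∅)]
  · have h1 : mob Wi (∅ : Finset (Sym2 V)) = 1 := by
      have h2 := sum_mob (Wi (V := V)) ∅
      rw [Finset.powerset_empty, Finset.sum_singleton] at h2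
      rw [h2]
      have h3 := Zs_mul_Wi (∅ : Finset (Sym2 V))
      rw [Zs, Finset.powerset_empty, Finset.sum_singleton, zeta_empty, one_mul] at h3
      exact h3
    show coeff j (((rk (KE Y) : ℕ) : ℤ⟦X⟧) * zeta (KE Y) * mob Wi ∅) = _
    rw [h1, mul_one, hrk, zeta, if_pos hdiag, hrk]
    have h2 : ((j : ℕ) : ℤ⟦X⟧) * ((-1) ^ (KE Y).card * X ^ j)
        = PowerSeries.C ((-1) ^ (KE Y).card * (j : ℤ)) * X ^ j := by
      rw [map_mul, map_pow, map_neg, map_one, map_natCast]; ring
    rw [h2, PowerSeries.coeff_C_mul, PowerSeries.coeff_X_pow, if_pos rfl, mul_one]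
  · rintro ⟨A, B⟩ hp hne
    rw [mem_prs] at hp
    show coeff j ((rk A : ℤ⟦X⟧) * zeta A * mob Wi B) = 0
    rcases Nat.eq_zero_or_pos (rk A) with h0 | h0
    · rw [h0, Nat.cast_zero, zero_mul, zero_mul, map_zero]
    · have hB : B ≠ ∅ := by
        rintro rfl
        apply hne
        rw [← hp, Finset.union_empty]
      have hB1 : 1 ≤ rk B := rk_pos hB fun e he => hdiag e (hp ▸ Finset.mem_union_right _ he)
      have h7 := mul_dvd_mul (Dvd.dvd.mul_left (zeta_dvd A) (rk A : ℤ⟦X⟧)) (mobWi_dvd B)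
      rw [← pow_add] at h7
      refine PowerSeries.X_pow_dvd_iff.1 h7 j ?_
      rcases hor A B hp with h8 | h8 <;> omega
  · intro h
    exact absurd (mem_prs.2 (Finset.union_empty _)) h

/-- The invariants are determined by the numbers of proper colourings. -/
theorem lam_congr {T T' : Finset (Sym2 V)} (hT : ∀ e ∈ T, ¬ e.IsDiag) (hT' : ∀ e ∈ T', ¬ e.IsDiag)
    (h : ∀ k, col T (Fin k) = col T' (Fin k)) (j : ℕ) : lam j T = lam j T' := by
  have hco : ∀ T : Finset (Sym2 V), (∀ e ∈ T, ¬ e.IsDiag) → ∀ i, coeff i (Zs T)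
      = ∑ A ∈ T.powerset, (if rk A = i then (-1 : ℤ) ^ A.card else 0) := by
    intro T hT i
    rw [Zs, map_sum]
    refine Finset.sum_congr rfl fun A hA => ?_
    rw [Finset.mem_powerset] at hA
    rw [zeta, if_pos fun e he => hT e (hA he)]
    have h2 : ((-1) ^ A.card * X ^ rk A : ℤ⟦X⟧) = PowerSeries.C ((-1) ^ A.card) * X ^ rk A := by
      rw [map_pow, map_neg, map_one]
    rw [h2, PowerSeries.coeff_C_mul, PowerSeries.coeff_X_pow]
    by_cases h3 : rk A = i
    · rw [if_pos h3, if_pos h3.symm, mul_one]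
    · rw [if_neg h3, if_neg fun h4 => h3 h4.symm, mul_zero]
  have hco2 : ∀ T : Finset (Sym2 V), ∀ i, coeff i (Th T) = i * coeff i (Zs T) := by
    intro T i
    rw [Th, Zs, map_sum, map_sum, Finset.mul_sum]
    refine Finset.sum_congr rfl fun A _ => ?_
    have h1 : ((rk A : ℕ) : ℤ⟦X⟧) * zeta A = PowerSeries.C ((rk A : ℤ)) * zeta A := by
      rw [map_natCast]
    rw [h1, PowerSeries.coeff_C_mul]
    unfold zeta
    split_ifs with h
    · have h2 : ((-1) ^ A.card * X ^ rk A : ℤ⟦X⟧) = PowerSeries.C ((-1) ^ A.card) * X ^ rk A := by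
        rw [map_pow, map_neg, map_one]
      rw [h2, PowerSeries.coeff_C_mul, PowerSeries.coeff_X_pow]
      by_cases h3 : i = rk A
      · rw [if_pos h3, h3]
      · rw [if_neg h3]; ring
    · rw [map_zero, mul_zero, mul_zero]
  have hZ : Zs T = Zs T' := by
    ext i
    rw [hco T hT, hco T' hT', rank_sum_eq h]
  have hTh : Th T = Th T' := by
    ext i
    rw [hco2, hco2, hZ]
  unfold lam La Wi
  rw [hZ, hTh]

end Pool.Agent.Lib_helper77.CP
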