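import Pool.Agent.Lib_helper77.CP.Copies
import Pool.Agent.Lib_helper77.CP.Local

/-!
# MP_8a986b_co: the copies, and the mixed differences
-/

set_option autoImplicit false
set_option linter.unusedSectionVars false

open Finset

namespace Pool.Agent.Lib_helper77.CP

/-! ### overwriting some coordinates of a random set -/

section ow

variable {E I : Type} [DecidableEq E] [Fintype I] [DecidableEq I]

/-- `T` with the coordinates `e i` replaced by `z i`. -/
def ow (e : I → E) (T : Finset E) (z : I → Bool) : Finset E :=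
  (T \ univ.image e) ∪ (univ.filter fun i => z i = true).image e

theorem mem_ow {e : I → E} (he : Function.Injective e) {T : Finset E} {z : I → Bool} (i : I) :
    e i ∈ ow e T z ↔ z i = true := by
  unfold ow
  rw [Finset.mem_union, Finset.mem_sdiff, Finset.mem_image, Finset.mem_image]
  constructor
  · rintro (⟨_, h⟩ | ⟨j, hj, hij⟩)
    · exact absurd ⟨i, Finset.mem_univ _, rfl⟩ h
    · rw [← he hij]; exact (Finset.mem_filter.1 hj).2
  · intro h
    exact Or.inr ⟨i, Finset.mem_filter.2 ⟨Finset.mem_univ _, h⟩, rfl⟩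

theorem mem_ow_of_notMem {e : I → E} {T : Finset E} {z : I → Bool} {x : E} (hx : ∀ i, e i ≠ x) :
    x ∈ ow e T z ↔ x ∈ T := by
  unfold ow
  rw [Finset.mem_union, Finset.mem_sdiff, Finset.mem_image, Finset.mem_image]
  constructor
  · rintro (⟨h, _⟩ | ⟨j, _, hij⟩)
    · exact h
    · exact absurd hij (hx j)
  · intro h
    exact Or.inl ⟨h, fun ⟨j, _, hj⟩ => hx j hj⟩

theorem sum_ow {e : I → E} (he : Function.Injective e) {F : Finset E} (hF : ∀ i, e i ∈ F)
    (h : Finset E → ℂ) :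
    (Fintype.card (I → Bool) : ℂ) * ∑ T ∈ F.powerset, h T
      = ∑ T ∈ F.powerset, ∑ z : I → Bool, h (ow e T z) := by
  have h1 : (Fintype.card (I → Bool) : ℂ) * ∑ T ∈ F.powerset, h T
      = ∑ p ∈ F.powerset ×ˢ (Finset.univ : Finset (I → Bool)), h p.1 := by
    rw [Finset.sum_product]
    simp only [Finset.sum_const, Finset.card_univ, nsmul_eq_mul]
    rw [Finset.mul_sum]
  have h2 : ∑ T ∈ F.powerset, ∑ z : I → Bool, h (ow e T z)
      = ∑ p ∈ F.powerset ×ˢ (Finset.univ : Finset (I → Bool)), h (ow e p.1 p.2) := by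
    rw [Finset.sum_product]
  rw [h1, h2]
  have hsub : ∀ (T : Finset E) (z : I → Bool), T ⊆ F → ow e T z ⊆ F := by
    intro T z hT x hx
    by_cases h : ∃ i, e i = x
    · obtain ⟨i, rfl⟩ := h; exact hF i
    · push Not at h
      exact hT ((mem_ow_of_notMem h).1 hx)
  have hinv : ∀ (T : Finset E) (z : I → Bool),
      ow e (ow e T z) (fun i => decide (e i ∈ T)) = T := by
    intro T z
    ext x
    by_cases h : ∃ i, e i = x
    · obtain ⟨i, rfl⟩ := h
      rw [mem_ow he]; exact decide_eq_true_iff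
    · push Not at h
      rw [mem_ow_of_notMem h, mem_ow_of_notMem h]
  have hinv2 : ∀ (T : Finset E) (z : I → Bool), (fun i => decide (e i ∈ ow e T z)) = z := by
    intro T z
    funext i
    rw [Bool.eq_iff_iff, decide_eq_true_iff, mem_ow he]
  refine Finset.sum_bij' (fun p _ => (ow e p.1 p.2, fun i => decide (e i ∈ p.1)))
    (fun p _ => (ow e p.1 p.2, fun i => decide (e i ∈ p.1))) ?_ ?_ ?_ ?_ ?_
  · rintro ⟨T, z⟩ hp
    rw [Finset.mem_product, Finset.mem_powerset] at hp ⊢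
    exact ⟨hsub T z hp.1, Finset.mem_univ _⟩
  · rintro ⟨T, z⟩ hp
    rw [Finset.mem_product, Finset.mem_powerset] at hp ⊢
    exact ⟨hsub T z hp.1, Finset.mem_univ _⟩
  · rintro ⟨T, z⟩ _
    exact Prod.ext (hinv T z) (hinv2 T z)
  · rintro ⟨T, z⟩ _
    exact Prod.ext (hinv T z) (hinv2 T z)
  · rintro ⟨T, z⟩ _
    show h T = h (ow e (ow e T z) (fun i => decide (e i ∈ T)))
    rw [hinv]

end ow

/-! ### the copies -/

/-- pair types -/
abbrev PT (q : ℕ) := {p : Fin q × Fin q // p.1 < p.2}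

/-- the number of pair types -/
abbrev np (q : ℕ) : ℕ := Fintype.card (PT q)

/-- enumeration of the pair types -/
noncomputable def en (q : ℕ) : Fin (np q) ≃ PT q := (Fintype.equivFin (PT q)).symm

variable {V : Type} [Fintype V] [DecidableEq V] (U : Finset V) {L q : ℕ} (v : Fin L → Fin q → V)

/-- the edges inside a copy -/
noncomputable def ep (l : Fin L) (i : Fin (np q)) : Sym2 V :=
  s(v l (en q i).1.1, v l (en q i).1.2)

/-- the edges between `U` and a copy -/
def eu (l : Fin L) (k : U × Fin q) : Sym2 V := s(k.1.1, v l k.2)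

/-- a copy with some edges to `U` -/
noncomputable def Sla (l : Fin L) (a : Finset (U × Fin q)) : Finset (Sym2 V) :=
  univ.image (ep v l) ∪ a.image (eu U v l)

/-- good copies: disjoint and outside `U` -/
structure GoodC : Prop where
  inj : ∀ l c l' c', v l c = v l' c' → l = l' ∧ c = c'
  out : ∀ l c, v l c ∉ U

variable {U v}

theorem ep_inj (h : GoodC U v) {l l' : Fin L} {i i' : Fin (np q)} (he : ep v l i = ep v l' i') :
    l = l' ∧ i = i' := by
  unfold ep at he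
  have h1 := (en q i).2
  have h2 := (en q i').2
  rw [Sym2.eq_iff] at he
  rcases he with ⟨h3, h4⟩ | ⟨h3, h4⟩
  · obtain ⟨h5, h6⟩ := h.inj _ _ _ _ h3
    obtain ⟨_, h7⟩ := h.inj _ _ _ _ h4
    exact ⟨h5, (en q).injective (Subtype.ext (Prod.ext h6 h7))⟩
  · obtain ⟨_, h6⟩ := h.inj _ _ _ _ h3
    obtain ⟨_, h7⟩ := h.inj _ _ _ _ h4
    rw [h6, h7] at h1
    exact absurd h1 (not_lt.2 h2.le)

theorem eu_inj (h : GoodC U v) {l l' : Fin L} {k k' : U × Fin q} (he : eu U v l k = eu U v l' k') :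
    l = l' ∧ k = k' := by
  unfold eu at he
  rw [Sym2.eq_iff] at he
  rcases he with ⟨h3, h4⟩ | ⟨h3, h4⟩
  · obtain ⟨h5, h6⟩ := h.inj _ _ _ _ h4
    exact ⟨h5, Prod.ext (Subtype.ext h3) h6⟩
  · exact absurd (h3 ▸ k.1.2) (h.out _ _)

theorem ep_ne_eu (h : GoodC U v) {l l' : Fin L} {i : Fin (np q)} {k : U × Fin q} :
    ep v l i ≠ eu U v l' k := by
  intro he
  unfold ep eu at he
  rw [Sym2.eq_iff] at he
  rcases he with ⟨h3, _⟩ | ⟨_, h3⟩
  · exact h.out l (en q i).1.1 (h3 ▸ k.1.2)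
  · exact h.out l (en q i).1.2 (h3 ▸ k.1.2)

/-- the edges used -/
noncomputable def ed (U : Finset V) (v : Fin L → Fin q → V) :
    (Fin (np q) × Fin L) ⊕ (Fin L × (U × Fin q)) → Sym2 V :=
  Sum.elim (fun p => ep v p.2 p.1) (fun p => eu U v p.1 p.2)

theorem ed_inj (h : GoodC U v) : Function.Injective (ed U v) := by
  rintro (⟨i, l⟩ | ⟨l, k⟩) (⟨i', l'⟩ | ⟨l', k'⟩) he
  · have he' : ep v l i = ep v l' i' := he
    obtain ⟨h1, h2⟩ := ep_inj h he'
    rw [h1, h2]
  · exact absurd he (ep_ne_eu h)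
  · exact absurd he.symm (ep_ne_eu h)
  · have he' : eu U v l k = eu U v l' k' := he
    obtain ⟨h1, h2⟩ := eu_inj h he'
    rw [h1, h2]

/-- the pairs that are not inside `U` -/
def Eo (U : Finset V) : Finset (Sym2 V) := univ.filter fun e => ¬ e.IsDiag ∧ ¬ ∀ w ∈ e, w ∈ U

theorem mem_Eo {a b : V} : s(a, b) ∈ Eo U ↔ a ≠ b ∧ ¬ (a ∈ U ∧ b ∈ U) := by
  unfold Eo
  rw [Finset.mem_filter, Sym2.mk_isDiag_iff]
  simp only [Finset.mem_univ, true_and, Sym2.mem_iff]
  constructor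
  · rintro ⟨h1, h2⟩
    refine ⟨h1, fun h3 => h2 ?_⟩
    rintro w (rfl | rfl)
    · exact h3.1
    · exact h3.2
  · rintro ⟨h1, h2⟩
    exact ⟨h1, fun h3 => h2 ⟨h3 a (Or.inl rfl), h3 b (Or.inr rfl)⟩⟩

theorem ep_mem (h : GoodC U v) (l : Fin L) (i : Fin (np q)) : ep v l i ∈ Eo U := by
  unfold ep
  rw [mem_Eo]
  refine ⟨fun h1 => ?_, fun h1 => h.out _ _ h1.1⟩
  have h2 := (h.inj _ _ _ _ h1).2
  have h3 := (en q i).2
  rw [h2] at h3
  exact lt_irrefl _ h3

theorem eu_mem (h : GoodC U v) (l : Fin L) (k : U × Fin q) : eu U v l k ∈ Eo U := by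
  unfold eu
  rw [mem_Eo]
  refine ⟨fun h1 => h.out l k.2 (h1 ▸ k.1.2), fun h1 => h.out _ _ h1.2⟩

theorem ed_mem (h : GoodC U v) (i) : ed U v i ∈ Eo U := by
  rcases i with ⟨i, l⟩ | ⟨l, k⟩
  · exact ep_mem h l i
  · exact eu_mem h l k

theorem Sla_sub (h : GoodC U v) (l : Fin L) (a : Finset (U × Fin q)) : Sla U v l a ⊆ Eo U := by
  intro e he
  rcases Finset.mem_union.1 he with h1 | h1
  · obtain ⟨i, _, rfl⟩ := Finset.mem_image.1 h1
    exact ep_mem h l i
  · obtain ⟨k, _, rfl⟩ := Finset.mem_image.1 h1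
    exact eu_mem h l k

theorem ep_mem_Sla (h : GoodC U v) {l l' : Fin L} {i : Fin (np q)} {a : Finset (U × Fin q)} :
    ep v l' i ∈ Sla U v l a ↔ l' = l := by
  unfold Sla
  rw [Finset.mem_union, Finset.mem_image, Finset.mem_image]
  constructor
  · rintro (⟨j, _, hj⟩ | ⟨k, _, hk⟩)
    · exact ((ep_inj h hj).1).symm
    · exact absurd hk.symm (ep_ne_eu h)
  · rintro rfl
    exact Or.inl ⟨i, Finset.mem_univ _, rfl⟩

theorem eu_mem_Sla (h : GoodC U v) {l l' : Fin L} {k : U × Fin q} {a : Finset (U × Fin q)} :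
    eu U v l' k ∈ Sla U v l a ↔ l' = l ∧ k ∈ a := by
  unfold Sla
  rw [Finset.mem_union, Finset.mem_image, Finset.mem_image]
  constructor
  · rintro (⟨j, _, hj⟩ | ⟨k', hk', hk⟩)
    · exact absurd hj (ep_ne_eu h)
    · obtain ⟨h1, h2⟩ := eu_inj h hk
      exact ⟨h1.symm, h2 ▸ hk'⟩
  · rintro ⟨rfl, hk⟩
    exact Or.inr ⟨k, hk, rfl⟩

/-- every pair of different indices is a pair type -/
theorem exists_type {c c' : Fin q} (h : c ≠ c') : ∃ i : Fin (np q),
    ((en q i).1.1 = c ∧ (en q i).1.2 = c') ∨ ((en q i).1.1 = c' ∧ (en q i).1.2 = c) := by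
  rcases lt_or_gt_of_ne h with h1 | h1
  · refine ⟨(en q).symm ⟨(c, c'), h1⟩, Or.inl ?_⟩
    rw [Equiv.apply_symm_apply]; exact ⟨rfl, rfl⟩
  · refine ⟨(en q).symm ⟨(c', c), h1⟩, Or.inr ?_⟩
    rw [Equiv.apply_symm_apply]; exact ⟨rfl, rfl⟩

/-- the surviving monomials -/
theorem survive (h : GoodC U v) (hq : 2 ≤ q) {S : Finset (Sym2 V)} (hS : S ⊆ Eo U)
    (hc : (vs S \ U).card ≤ q) (hA : ∀ i, ∃ l, ep v l i ∈ S) :
    ∃ l a, S = Sla U v l a := by
  classical
  -- for every index some vertex of that type is touched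
  have h1 : ∀ c : Fin q, ∃ l, v l c ∈ vs S := by
    intro c
    obtain ⟨c', hcc'⟩ : ∃ c' : Fin q, c ≠ c' := by
      by_cases h0 : c = ⟨0, by omega⟩
      · exact ⟨⟨1, by omega⟩, by rw [h0]; simp [Fin.ext_iff]⟩
      · exact ⟨⟨0, by omega⟩, h0⟩
    obtain ⟨i, hi⟩ := exists_type hcc'
    obtain ⟨l, hl⟩ := hA i
    refine ⟨l, ?_⟩
    unfold ep at hl
    rcases hi with ⟨h2, _⟩ | ⟨_, h2⟩
    · rw [h2] at hl; exact mem_vs_left hl
    · rw [h2] at hl; exact mem_vs_right hl
  choose f hf using h1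
  have h2 : (univ.image fun c => v (f c) c) ⊆ vs S \ U := by
    intro w hw
    obtain ⟨c, _, rfl⟩ := Finset.mem_image.1 hw
    exact Finset.mem_sdiff.2 ⟨hf c, h.out _ _⟩
  have h3 : (univ.image fun c => v (f c) c).card = q := by
    rw [Finset.card_image_of_injective, Finset.card_univ, Fintype.card_fin]
    intro c c' hcc
    exact (h.inj _ _ _ _ hcc).2
  have h4 : (univ.image fun c => v (f c) c) = vs S \ U :=
    Finset.eq_of_subset_of_card_le h2 (by rw [h3]; exact hc)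
  -- membership
  have h5 : ∀ l c, v l c ∈ vs S → l = f c := by
    intro l c hlc
    have : v l c ∈ vs S \ U := Finset.mem_sdiff.2 ⟨hlc, h.out _ _⟩
    rw [← h4] at this
    obtain ⟨d, _, hd⟩ := Finset.mem_image.1 this
    obtain ⟨h6, h7⟩ := h.inj _ _ _ _ hd
    rw [← h6, h7]
  have h6 : ∀ i l, ep v l i ∈ S → l = f (en q i).1.1 ∧ l = f (en q i).1.2 := by
    intro i l hl
    unfold ep at hl
    exact ⟨h5 _ _ (mem_vs_left hl), h5 _ _ (mem_vs_right hl)⟩
  let c0 : Fin q := ⟨0, by omega⟩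
  have h7 : ∀ c, f c = f c0 := by
    intro c
    by_cases h0 : c = c0
    · rw [h0]
    · obtain ⟨i, hi⟩ := exists_type h0
      obtain ⟨l, hl⟩ := hA i
      obtain ⟨h8, h9⟩ := h6 i l hl
      rcases hi with ⟨h10, h11⟩ | ⟨h10, h11⟩
      · rw [h10] at h8; rw [h11] at h9; rw [← h8, ← h9]
      · rw [h10] at h8; rw [h11] at h9; rw [← h8, ← h9]
  set l0 := f c0 with hl0
  refine ⟨l0, univ.filter fun k => eu U v l0 k ∈ S, ?_⟩
  have hmem : ∀ w ∈ vs S, w ∉ U → ∃ c, w = v l0 c := by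
    intro w hw hwU
    have : w ∈ vs S \ U := Finset.mem_sdiff.2 ⟨hw, hwU⟩
    rw [← h4] at this
    obtain ⟨d, _, hd⟩ := Finset.mem_image.1 this
    refine ⟨d, ?_⟩
    rw [← hd, h7 d]
  ext e
  induction e with
  | _ x y =>
    constructor
    · intro he
      have hx := mem_vs_left he
      have hy := mem_vs_right he
      obtain ⟨hne, hU⟩ := mem_Eo.1 (hS he)
      unfold Sla
      rw [Finset.mem_union, Finset.mem_image, Finset.mem_image]
      by_cases hxU : x ∈ U
      · have hyU : y ∉ U := fun h8 => hU ⟨hxU, h8⟩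
        obtain ⟨c, rfl⟩ := hmem y hy hyU
        right
        exact ⟨(⟨x, hxU⟩, c), Finset.mem_filter.2 ⟨Finset.mem_univ _, he⟩, rfl⟩
      · obtain ⟨c, rfl⟩ := hmem x hx hxU
        by_cases hyU : y ∈ U
        · right
          refine ⟨(⟨y, hyU⟩, c), Finset.mem_filter.2 ⟨Finset.mem_univ _, ?_⟩, ?_⟩
          · unfold eu; rw [Sym2.eq_swap]; exact he
          · unfold eu; rw [Sym2.eq_swap]
        · obtain ⟨c', rfl⟩ := hmem y hy hyU
          left
          have hcc : c ≠ c' := fun h8 => hne (by rw [h8])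
          obtain ⟨i, hi⟩ := exists_type hcc
          refine ⟨i, Finset.mem_univ _, ?_⟩
          unfold ep
          rcases hi with ⟨h10, h11⟩ | ⟨h10, h11⟩
          · rw [h10, h11]
          · rw [h10, h11, Sym2.eq_swap]
    · intro he
      unfold Sla at he
      rw [Finset.mem_union, Finset.mem_image, Finset.mem_image] at he
      rcases he with ⟨i, _, hi⟩ | ⟨k, hk, hk2⟩
      · obtain ⟨l, hl⟩ := hA i
        have := (h6 i l hl).1
        rw [h7] at this
        rw [← hi, ← this]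
        exact hl
      · rw [← hk2]
        exact (Finset.mem_filter.1 hk).2

theorem Sla_inj (h : GoodC U v) (hq : 2 ≤ q) {l l' : Fin L} {a a' : Finset (U × Fin q)}
    (he : Sla U v l a = Sla U v l' a') : l = l' ∧ a = a' := by
  obtain ⟨i, _⟩ := exists_type (q := q) (c := ⟨0, by omega⟩) (c' := ⟨1, by omega⟩)
    (by simp [Fin.ext_iff])
  have h1 : l = l' := by
    have : ep v l i ∈ Sla U v l' a' := he ▸ (ep_mem_Sla h).2 rfl
    exact (ep_mem_Sla h).1 this
  subst h1
  refine ⟨rfl, ?_⟩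
  ext k
  constructor
  · intro hk
    have : eu U v l k ∈ Sla U v l a' := he ▸ (eu_mem_Sla h).2 ⟨rfl, hk⟩
    exact ((eu_mem_Sla h).1 this).2
  · intro hk
    have : eu U v l k ∈ Sla U v l a := he ▸ (eu_mem_Sla h).2 ⟨rfl, hk⟩
    exact ((eu_mem_Sla h).1 this).2

end Pool.Agent.Lib_helper77.CP
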