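import Pool.Agent.Lib_helper77.CP.Gowers

/-!
# MP_8a986b_co: a bound for exponential sums with many independent copies
-/

set_option autoImplicit false
set_option linter.unusedSectionVars false

open Finset

namespace Pool.Agent.Lib_helper77.CP

theorem av_pi {L : ℕ} {Z : Type} [Fintype Z] (f : Fin L → Z → ℂ) :
    (av fun z : Fin L → Z => ∏ l, f l (z l)) = ∏ l, av (f l) := by
  unfold av
  rw [Finset.prod_div_distrib, Finset.prod_univ_sum, Fintype.piFinset_univ, Finset.prod_const,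
    Fintype.card_fun, Finset.card_univ]
  push_cast
  rfl

theorem char_sum {A : Type} [AddCommGroup A] (ψ : AddChar A ℂ) {ι : Type} (s : Finset ι)
    (f : ι → A) : ψ (∑ i ∈ s, f i) = ∏ i ∈ s, ψ (f i) := by
  classical
  induction s using Finset.induction_on with
  | empty => simp
  | insert a s ha ih => rw [Finset.sum_insert ha, Finset.prod_insert ha, AddChar.map_add_eq_mul, ih]

/-- nontrivial values of the standard character are not close to `1` -/
theorem norm_one_add_char {m : ℕ} [NeZero m] (hm : 2 ≤ m) {a : ZMod m} (ha : a ≠ 0) :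
    ‖1 + ZMod.stdAddChar a‖ ≤ 2 - 4 / (m : ℝ) ^ 2 := by
  have hm0 : (0 : ℝ) < m := by exact_mod_cast (by omega : 0 < m)
  have hm2 : (2 : ℝ) ≤ m := by exact_mod_cast hm
  have hpi := Real.pi_pos
  have hv1 : 1 ≤ a.val := Nat.one_le_iff_ne_zero.2 ((ZMod.val_ne_zero a).2 ha)
  have hv2 : a.val + 1 ≤ m := ZMod.val_lt a
  set φ : ℝ := Real.pi * a.val / m with hφ
  have h1 : ZMod.stdAddChar a = Complex.exp ((φ : ℂ) * Complex.I) * Complex.exp ((φ : ℂ) * Complex.I) := by
    rw [ZMod.stdAddChar_apply, ZMod.toCircle_apply, ← Complex.exp_add]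
    congr 1
    rw [hφ]
    push_cast
    ring
  have h2 : (1 : ℂ) + ZMod.stdAddChar a
      = Complex.exp ((φ : ℂ) * Complex.I) * ((2 * Real.cos φ : ℝ) : ℂ) := by
    have h3 : ((2 * Real.cos φ : ℝ) : ℂ)
        = Complex.exp ((φ : ℂ) * Complex.I) + Complex.exp (-((φ : ℂ) * Complex.I)) := by
      push_cast
      rw [Complex.two_cos, neg_mul]
    rw [h3, mul_add, ← Complex.exp_add _ (-((φ : ℂ) * Complex.I)), add_neg_cancel, Complex.exp_zero,
      h1, add_comm]
  rw [h2, norm_mul, Complex.norm_exp_ofReal_mul_I, one_mul, Complex.norm_real, Real.norm_eq_abs,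
    abs_mul, abs_two]
  have h4 : |Real.cos φ| ≤ Real.cos (Real.pi / m) := by
    have hlo : Real.pi / m ≤ φ := by
      rw [hφ, div_le_div_iff_of_pos_right hm0]
      have : (1 : ℝ) ≤ a.val := by exact_mod_cast hv1
      nlinarith
    have hhi : φ ≤ Real.pi - Real.pi / m := by
      rw [hφ, le_sub_iff_add_le, ← add_div, div_le_iff₀ hm0]
      have : (a.val : ℝ) + 1 ≤ m := by exact_mod_cast hv2
      nlinarith
    rw [abs_le]
    constructor
    · have h5 := Real.cos_le_cos_of_nonneg_of_le_pi (x := φ) (y := Real.pi - Real.pi / m)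
        (le_trans (by positivity) hlo) (by linarith [div_pos hpi hm0]) hhi
      rw [Real.cos_pi_sub] at h5
      exact h5
    · exact Real.cos_le_cos_of_nonneg_of_le_pi (by positivity)
        (hhi.trans (by linarith [div_pos hpi hm0])) hlo
  have h6 : Real.cos (Real.pi / m) ≤ 1 - 2 / (m : ℝ) ^ 2 := by
    have h7 := Real.cos_le_one_sub_mul_cos_sq (x := Real.pi / m) (by
      rw [abs_of_pos (div_pos hpi hm0)]
      exact div_le_self hpi.le (by linarith))
    refine h7.trans (le_of_eq ?_)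
    field_simp
  have h8 : (4 : ℝ) / m ^ 2 = 2 * (2 / m ^ 2) := by ring
  rw [h8]
  linarith

/-- `1` or `0` -/
def b2 (b : Bool) : ℤ := if b then 1 else 0

/-- one copy -/
theorem factor_bound {m : ℕ} [NeZero m] (hm : 2 ≤ m) {s : ℕ} (hs : 1 ≤ s) {K : Type} [Fintype K]
    [DecidableEq K] (D : (K → Bool) → ZMod m) (hD : ∃ y, D y ≠ 0) :
    ‖av fun z : (K → Bool) × (Fin s → Bool × Bool) =>
      ZMod.stdAddChar ((∏ i, (b2 (z.2 i).1 - b2 (z.2 i).2)) • D z.1)‖
      ≤ 1 - 4 / (2 ^ Fintype.card K * 4 ^ s * (m : ℝ) ^ 2) := by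
  classical
  obtain ⟨y, hy⟩ := hD
  set f : (K → Bool) × (Fin s → Bool × Bool) → ℂ := fun z =>
      ZMod.stdAddChar ((∏ i, (b2 (z.2 i).1 - b2 (z.2 i).2)) • D z.1) with hf
  have hcard : (Fintype.card ((K → Bool) × (Fin s → Bool × Bool)) : ℝ)
      = 2 ^ Fintype.card K * 4 ^ s := by
    rw [Fintype.card_prod, Fintype.card_fun, Fintype.card_fun, Fintype.card_prod, Fintype.card_bool,
      Fintype.card_fin]
    norm_num
  have hnorm : ∀ z, ‖f z‖ = 1 := fun z => AddChar.norm_apply _ _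
  let z1 : (K → Bool) × (Fin s → Bool × Bool) := (y, fun _ => (false, false))
  let z2 : (K → Bool) × (Fin s → Bool × Bool) := (y, fun _ => (true, false))
  have h12 : z1 ≠ z2 := by
    intro h
    have := congrFun (congrArg Prod.snd h) ⟨0, hs⟩
    simp [z1, z2] at this
  have hf1 : f z1 = 1 := by
    have : (∏ i : Fin s, (b2 (z1.2 i).1 - b2 (z1.2 i).2)) = 0 :=
      Finset.prod_eq_zero (Finset.mem_univ (⟨0, hs⟩ : Fin s)) (by simp [z1, b2])
    simp only [hf, this, zero_smul, AddChar.map_zero_eq_one]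
  have hf2 : f z2 = ZMod.stdAddChar (D y) := by
    have : (∏ i : Fin s, (b2 (z2.2 i).1 - b2 (z2.2 i).2)) = 1 :=
      Finset.prod_eq_one fun i _ => by simp [z2, b2]
    simp only [hf, this, one_smul]
    rfl
  have h3 : ‖f z1 + f z2‖ ≤ 2 - 4 / (m : ℝ) ^ 2 := by
    rw [hf1, hf2]; exact norm_one_add_char hm hy
  have h4 : ∑ z, f z = (f z1 + f z2) + ∑ z ∈ (Finset.univ.erase z1).erase z2, f z := by
    rw [add_assoc, Finset.add_sum_erase _ _ (Finset.mem_erase.2 ⟨h12.symm, Finset.mem_univ _⟩),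
      Finset.add_sum_erase _ _ (Finset.mem_univ _)]
  have h5 : ‖∑ z ∈ (Finset.univ.erase z1).erase z2, f z‖
      ≤ (Fintype.card ((K → Bool) × (Fin s → Bool × Bool)) : ℝ) - 2 := by
    refine (norm_sum_le _ _).trans ?_
    rw [Finset.sum_congr rfl fun z _ => hnorm z, Finset.sum_const, nsmul_eq_mul, mul_one,
      Finset.card_erase_of_mem (Finset.mem_erase.2 ⟨h12.symm, Finset.mem_univ _⟩),
      Finset.card_erase_of_mem (Finset.mem_univ _), Finset.card_univ]
    have h6 : 2 ≤ Fintype.card ((K → Bool) × (Fin s → Bool × Bool)) :=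
      Fintype.one_lt_card_iff.2 ⟨z1, z2, h12⟩
    rw [Nat.sub_sub, Nat.cast_sub h6]
    norm_num
  have hN : (0 : ℝ) < 2 ^ Fintype.card K * 4 ^ s := by positivity
  have hm0 : (0 : ℝ) < m := by exact_mod_cast (by omega : 0 < m)
  unfold av
  rw [norm_div, Complex.norm_natCast, hcard, div_le_iff₀ hN, h4]
  refine (norm_add_le _ _).trans ?_
  rw [hcard] at h5
  have h7 : (1 - 4 / (2 ^ Fintype.card K * 4 ^ s * (m : ℝ) ^ 2)) * (2 ^ Fintype.card K * 4 ^ s)
      = 2 ^ Fintype.card K * 4 ^ s - 4 / (m : ℝ) ^ 2 := by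
    field_simp
  rw [h7]
  linarith

/-- many copies -/
theorem copies_bound {m : ℕ} [NeZero m] (hm : 2 ≤ m) {L s : ℕ} (hs : 1 ≤ s) {K : Type} [Fintype K]
    [DecidableEq K] (G : (Fin s → Fin L → Bool) → (Fin L → K → Bool) → ZMod m)
    (D : Fin L → (K → Bool) → ZMod m) (hD : ∀ l, ∃ y, D l y ≠ 0)
    (h : ∀ (p : Fin s → (Fin L → Bool) × (Fin L → Bool)) (y : Fin L → K → Bool),
      ∑ ω : Fin s → Bool, sg ω • G (fun i => if ω i then (p i).2 else (p i).1) y
        = ∑ l, (∏ i, (b2 ((p i).1 l) - b2 ((p i).2 l))) • D l (y l)) :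
    ‖av fun y => av fun x => ZMod.stdAddChar (G x y)‖ ^ (2 ^ s)
      ≤ (1 - 4 / (2 ^ Fintype.card K * 4 ^ s * (m : ℝ) ^ 2)) ^ L := by
  classical
  refine (gowers (ZMod.stdAddChar (N := m)) s (fun x y => G x y)).trans ?_
  simp only [h]
  let e : (Fin L → K → Bool) × (Fin s → (Fin L → Bool) × (Fin L → Bool))
      ≃ (Fin L → (K → Bool) × (Fin s → Bool × Bool)) :=
    { toFun := fun q l => (q.1 l, fun i => ((q.2 i).1 l, (q.2 i).2 l))
      invFun := fun z => (fun l => (z l).1, fun i => (fun l => ((z l).2 i).1, fun l => ((z l).2 i).2))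
      left_inv := fun q => rfl
      right_inv := fun z => rfl }
  have h1 : (av fun y : Fin L → K → Bool => av fun p : Fin s → (Fin L → Bool) × (Fin L → Bool) =>
      ZMod.stdAddChar (∑ l, (∏ i, (b2 ((p i).1 l) - b2 ((p i).2 l))) • D l (y l)))
      = ∏ l, av fun z : (K → Bool) × (Fin s → Bool × Bool) =>
        (ZMod.stdAddChar ((∏ i, (b2 (z.2 i).1 - b2 (z.2 i).2)) • D l z.1) : ℂ) := by
    rw [← av_pi, av_equiv e, av_prod]
    congr 1
    funext y
    congr 1
    funext p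
    rw [char_sum]
    rfl
  rw [h1, norm_prod]
  calc ∏ l, ‖av fun z : (K → Bool) × (Fin s → Bool × Bool) =>
        (ZMod.stdAddChar ((∏ i, (b2 (z.2 i).1 - b2 (z.2 i).2)) • D l z.1) : ℂ)‖
      ≤ ∏ _l : Fin L, (1 - 4 / (2 ^ Fintype.card K * 4 ^ s * (m : ℝ) ^ 2)) :=
        Finset.prod_le_prod (fun _ _ => norm_nonneg _) fun l _ => factor_bound hm hs (D l) (hD l)
    _ = _ := by rw [Finset.prod_const, Finset.card_univ, Fintype.card_fin]

end Pool.Agent.Lib_helper77.CP
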