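import Mathlib

/-!
# Definitions for MP_8a986b_co.ChromaticLocal

The random graph `G(n, 1/2)` is the uniform distribution on the simple graphs on `Fin n`.
-/

set_option autoImplicit false

namespace Pool.Agent.Lib_helper77.CP

/-- The number of proper colourings of `G` with `k` colours: the value at `k` of the chromatic
polynomial `π_G^{(K_1)}`. -/
noncomputable def numCol {n : ℕ} (G : SimpleGraph (Fin n)) (k : ℕ) : ℕ :=
  Nat.card {c : Fin n → Fin k // ∀ u v, G.Adj u v → c u ≠ c v}

/-- `G` and `G'` have the same chromatic polynomial. -/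
def SameChrom {n : ℕ} (G G' : SimpleGraph (Fin n)) : Prop := ∀ k, numCol G k = numCol G' k

/-- `G'` arises from `G` by adding and deleting edges inside the vertex set `U`. -/
def ChangedIn {n : ℕ} (U : Finset (Fin n)) (G G' : SimpleGraph (Fin n)) : Prop :=
  ∀ u v, ¬ (u ∈ U ∧ v ∈ U) → (G'.Adj u v ↔ G.Adj u v)

/-- The edit distance: the number of edges of exactly one of the two graphs. -/
noncomputable def editDist {n : ℕ} (G G' : SimpleGraph (Fin n)) : ℕ :=
  (symmDiff G.edgeSet G'.edgeSet).ncard

/-- The chromatic polynomial determines the graphs near `G`: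
* for every vertex set `U` with `C |U|² ≤ log₂ n`, different graphs that arise from `G` by changes
  inside `U` have different chromatic polynomials;
* different graphs at edit distance `r` from `G` with `C r² ≤ log₂ n` have different chromatic
  polynomials. -/
structure LocDet (C : ℕ) {n : ℕ} (G : SimpleGraph (Fin n)) : Prop where
  inside : ∀ U : Finset (Fin n), C * U.card ^ 2 ≤ Nat.log 2 n →
    ∀ G₁ G₂, ChangedIn U G G₁ → ChangedIn U G G₂ → SameChrom G₁ G₂ → G₁ = G₂
  near : ∀ G₁ G₂, C * editDist G G₁ ^ 2 ≤ Nat.log 2 n → C * editDist G G₂ ^ 2 ≤ Nat.log 2 n →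
    SameChrom G₁ G₂ → G₁ = G₂

end Pool.Agent.Lib_helper77.CP
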