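import Pool.Agent.Lib_helper77.CP.PairB

/-!
# MP_8a986b_co: the numerical estimate
-/

set_option autoImplicit false

open Finset

namespace Pool.Agent.Lib_helper77.CP

theorem num_cube {d : ℕ} (hd : 30 ≤ d) : 729 * d ^ 3 ≤ 2 ^ d := by
  induction d, hd using Nat.le_induction with
  | base => norm_num
  | succ d hd ih =>
    have h1 : (d + 1) ^ 3 ≤ 2 * d ^ 3 := by
      nlinarith [Nat.mul_le_mul hd hd, Nat.mul_le_mul (Nat.mul_le_mul hd hd) hd,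
        Nat.zero_le d, Nat.mul_le_mul hd (le_refl (d ^ 2))]
    calc 729 * (d + 1) ^ 3 ≤ 2 * (729 * d ^ 3) := by linarith
      _ ≤ 2 * 2 ^ d := by linarith
      _ = 2 ^ (d + 1) := by ring

/-- first estimate -/
theorem num1 {n l u m : ℕ} (hl : l = Nat.log 2 n) (h1000 : 1000 ≤ l) (hu : 10000 * u ^ 2 ≤ l)
    (hm1 : 2 ^ (l / 4) < m) :
    n ^ u * 4 ^ (u ^ 2) * 2 ^ l ≤ m ^ (8 * u + 8) := by
  have hn : n < 2 ^ (l + 1) := by
    rw [hl]; exact Nat.lt_pow_succ_log_self (by norm_num) n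
  set a := l / 4 with ha
  have ha1 : l ≤ 4 * a + 3 := by omega
  have ha2 : 2 * u + 3 ≤ 4 * a := by
    have : u ≤ u ^ 2 := Nat.le_self_pow (by norm_num) u
    omega
  have h1 : n ^ u ≤ 2 ^ ((l + 1) * u) := by
    rw [pow_mul]; exact Nat.pow_le_pow_left hn.le u
  have h2 : (4 : ℕ) ^ (u ^ 2) = 2 ^ (2 * u ^ 2) := by
    rw [pow_mul]; norm_num
  have h3 : 2 ^ (a * (8 * u + 8)) ≤ m ^ (8 * u + 8) := by
    rw [pow_mul]; exact Nat.pow_le_pow_left hm1.le _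
  refine le_trans ?_ h3
  rw [h2]
  calc n ^ u * 2 ^ (2 * u ^ 2) * 2 ^ l ≤ 2 ^ ((l + 1) * u) * 2 ^ (2 * u ^ 2) * 2 ^ l := by
        gcongr
    _ = 2 ^ ((l + 1) * u + 2 * u ^ 2 + l) := by rw [← pow_add, ← pow_add]
    _ ≤ 2 ^ (a * (8 * u + 8)) := by
        apply Nat.pow_le_pow_right (by norm_num)
        have h4 : l * u ≤ (4 * a + 3) * u := Nat.mul_le_mul_right u ha1
        have h5 : (2 * u + 3) * (u + 1) ≤ 4 * a * (u + 1) := Nat.mul_le_mul_right (u + 1) ha2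
        nlinarith

/-- second estimate -/
theorem num2 {n l u m : ℕ} (hl : l = Nat.log 2 n) (h1000 : 1000 ≤ l) (hu : 10000 * u ^ 2 ≤ l)
    (hm2 : m ≤ 2 * 2 ^ (l / 4)) :
    l ^ 2 * (2 ^ (u * (8 * u + 9)) * 8 ^ ((8 * u + 9) ^ 2) * m ^ 2) * (8 * u + 9) + u ≤ n := by
  have hn : 2 ^ l ≤ n := by
    rw [hl]
    apply Nat.pow_log_le_self
    rintro rfl
    rw [Nat.log_zero_right] at hl
    omega
  refine le_trans ?_ hn
  set d := l / 8 with hd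
  have hd1 : l ≤ 8 * d + 7 := by omega
  have hd2 : 8 * d ≤ l := by omega
  have hd3 : 125 ≤ d := by omega
  have hud : 641 * u ^ 2 ≤ d := by omega
  have huu : u ≤ u ^ 2 := Nat.le_self_pow (by norm_num) u
  have hu3 : u ≤ d := by omega
  have e1 : (8 : ℕ) ^ ((8 * u + 9) ^ 2) = 2 ^ (3 * (8 * u + 9) ^ 2) := by
    rw [pow_mul]; norm_num
  have e2 : m ^ 2 ≤ 2 ^ (4 * d + 4) := by
    have h1 : m ≤ 2 ^ (2 * d + 2) := by
      calc m ≤ 2 * 2 ^ (l / 4) := hm2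
        _ = 2 ^ (l / 4 + 1) := by ring
        _ ≤ 2 ^ (2 * d + 2) := Nat.pow_le_pow_right (by norm_num) (by omega)
    calc m ^ 2 ≤ (2 ^ (2 * d + 2)) ^ 2 := Nat.pow_le_pow_left h1 2
      _ = 2 ^ (4 * d + 4) := by rw [← pow_mul]; congr 1; ring
  have e3 : l ^ 2 * (8 * u + 9) ≤ 2 ^ d := by
    have h1 : l ≤ 9 * d := by omega
    have h2 : 8 * u + 9 ≤ 9 * d := by omega
    calc l ^ 2 * (8 * u + 9) ≤ (9 * d) ^ 2 * (9 * d) := by gcongr
      _ = 729 * d ^ 3 := by ring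
      _ ≤ 2 ^ d := num_cube (by omega)
  have e4 : u * (8 * u + 9) + 3 * (8 * u + 9) ^ 2 ≤ d + 243 := by
    have : u * (8 * u + 9) + 3 * (8 * u + 9) ^ 2 = 200 * u ^ 2 + 441 * u + 243 := by ring
    rw [this]
    omega
  calc l ^ 2 * (2 ^ (u * (8 * u + 9)) * 8 ^ ((8 * u + 9) ^ 2) * m ^ 2) * (8 * u + 9) + u
      = (l ^ 2 * (8 * u + 9)) * 2 ^ (u * (8 * u + 9) + 3 * (8 * u + 9) ^ 2) * m ^ 2 + u := by
        rw [e1, pow_add]; ring
    _ ≤ 2 ^ d * 2 ^ (d + 243) * 2 ^ (4 * d + 4) + 2 ^ (6 * d + 247) := by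
        have h1 : 2 ^ (u * (8 * u + 9) + 3 * (8 * u + 9) ^ 2) ≤ 2 ^ (d + 243) :=
          Nat.pow_le_pow_right (by norm_num) e4
        have h2 : u ≤ 2 ^ (6 * d + 247) := by
          have : 6 * d + 247 < 2 ^ (6 * d + 247) := Nat.lt_two_pow_self
          omega
        gcongr
    _ = 2 ^ (6 * d + 248) := by
        rw [← pow_add, ← pow_add, show d + (d + 243) + (4 * d + 4) = 6 * d + 247 by ring, pow_succ]
        ring
    _ ≤ 2 ^ l := Nat.pow_le_pow_right (by norm_num) (by omega)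

/-- the total bound -/
theorem num_total {n l u m : ℕ} (hl : l = Nat.log 2 n) (h1000 : 1000 ≤ l)
    (hu : 10000 * u ^ 2 ≤ l) (hm1 : 2 ^ (l / 4) < m) (hm2 : m ≤ 2 * 2 ^ (l / 4)) :
    (n : ℝ) ^ u * 4 ^ (u ^ 2) * (((m : ℝ) ^ (8 * u + 8))⁻¹
      + etaK u (8 * u + 8) ((n - u) / (8 * u + 9)) m) ≤ 2 * ((2 : ℝ) ^ l)⁻¹ := by
  have h1 := num1 hl h1000 hu hm1
  have h2 := num2 hl h1000 hu hm2
  have hm0 : (0 : ℝ) < m := by
    have : 0 < m := lt_of_le_of_lt (Nat.zero_le _) hm1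
    exact_mod_cast this
  have h3 : (n : ℝ) ^ u * 4 ^ (u ^ 2) * ((m : ℝ) ^ (8 * u + 8))⁻¹ ≤ ((2 : ℝ) ^ l)⁻¹ := by
    have h4 : ((n ^ u * 4 ^ (u ^ 2) * 2 ^ l : ℕ) : ℝ) ≤ ((m ^ (8 * u + 8) : ℕ) : ℝ) := by
      exact_mod_cast h1
    push_cast at h4
    rw [← div_eq_mul_inv, div_le_iff₀ (by positivity), inv_mul_eq_div, le_div_iff₀ (by positivity)]
    exact h4
  -- the exponential sum part
  set L := (n - u) / (8 * u + 9) with hL
  set D : ℕ := 2 ^ (u * (8 * u + 9)) * 8 ^ ((8 * u + 9) ^ 2) * m ^ 2 with hD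
  have hDpos : (0 : ℝ) < D := by
    rw [hD]; push_cast; positivity
  have h5 : l ^ 2 * D ≤ L := by
    rw [hL, Nat.le_div_iff_mul_le (by omega)]
    omega
  have h6 : etaK u (8 * u + 8) L m = Real.exp (-(4 * L / D)) := by
    unfold etaK
    rw [hD]
    push_cast
    rfl
  have h7 : (4 : ℝ) * l ^ 2 ≤ 4 * L / D := by
    rw [le_div_iff₀ hDpos]
    have : ((l ^ 2 * D : ℕ) : ℝ) ≤ L := by exact_mod_cast h5
    push_cast at this
    nlinarith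
  have hexp : (2 : ℝ) ≤ Real.exp 1 := by
    have := Real.add_one_le_exp (1 : ℝ)
    linarith
  have h8 : (n : ℝ) ^ u * 4 ^ (u ^ 2) * 2 ^ l ≤ Real.exp (4 * L / D) := by
    have hn : n < 2 ^ (l + 1) := by
      rw [hl]; exact Nat.lt_pow_succ_log_self (by norm_num) n
    have h9 : (n : ℝ) ≤ 2 ^ (l + 1) := by exact_mod_cast hn.le
    have h10 : (n : ℝ) ^ u * 4 ^ (u ^ 2) * 2 ^ l ≤ 2 ^ ((l + 1) * u + 2 * u ^ 2 + l) := by
      calc (n : ℝ) ^ u * 4 ^ (u ^ 2) * 2 ^ l ≤ (2 ^ (l + 1)) ^ u * 4 ^ (u ^ 2) * 2 ^ l := by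
            gcongr
        _ = 2 ^ ((l + 1) * u + 2 * u ^ 2 + l) := by
            rw [pow_add _ _ l, pow_add _ ((l + 1) * u), pow_mul _ (l + 1) u, pow_mul _ 2 (u ^ 2)]
            norm_num
    have h11 : (l + 1) * u + 2 * u ^ 2 + l ≤ 4 * l ^ 2 := by
      have huu : u ≤ u ^ 2 := Nat.le_self_pow (by norm_num) u
      have hul : u ≤ l := by omega
      nlinarith [Nat.mul_le_mul (le_refl (l + 1)) hul]
    refine h10.trans ?_
    calc (2 : ℝ) ^ ((l + 1) * u + 2 * u ^ 2 + l) ≤ 2 ^ (4 * l ^ 2) :=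
          pow_le_pow_right₀ (by norm_num) h11
      _ ≤ (Real.exp 1) ^ (4 * l ^ 2) := by gcongr
      _ = Real.exp (4 * (l : ℝ) ^ 2) := by
          rw [← Real.exp_nat_mul]; push_cast; ring_nf
      _ ≤ _ := Real.exp_le_exp.2 h7
  have h9 : (n : ℝ) ^ u * 4 ^ (u ^ 2) * etaK u (8 * u + 8) L m ≤ ((2 : ℝ) ^ l)⁻¹ := by
    rw [h6, Real.exp_neg, ← div_eq_mul_inv, div_le_iff₀ (Real.exp_pos _), inv_mul_eq_div,
      le_div_iff₀ (by positivity)]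
    exact h8
  rw [mul_add]
  linarith

end Pool.Agent.Lib_helper77.CP
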