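import Pool.Agent.Lib_helper77.CP.Defs
import Pool.Agent.Lib_helper77.CP.Num

/-!
# MP_8a986b_co: almost every graph is locally determined by its chromatic polynomial
-/

set_option autoImplicit false

open Finset Filter Topology

namespace Pool.Agent.Lib_helper77.CP

variable {n : ℕ}

open Classical in
/-- the edge set as a finset -/
noncomputable def es (G : SimpleGraph (Fin n)) : Finset (Sym2 (Fin n)) :=
  univ.filter fun e => e ∈ G.edgeSet

theorem mem_es {G : SimpleGraph (Fin n)} {a b : Fin n} : s(a, b) ∈ es G ↔ G.Adj a b := by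
  classical
  simp only [es, Finset.mem_filter, SimpleGraph.mem_edgeSet, Finset.mem_univ, true_and]

theorem es_inj {G G' : SimpleGraph (Fin n)} (h : es G = es G') : G = G' := by
  ext a b
  rw [← mem_es, h, mem_es]

theorem es_sub (G : SimpleGraph (Fin n)) : es G ⊆ KE univ := by
  intro e
  induction e with
  | _ a b =>
    intro h
    rw [mem_KE]
    exact ⟨Finset.mem_univ _, Finset.mem_univ _, (mem_es.1 h).ne⟩

theorem es_notDiag (G : SimpleGraph (Fin n)) : ∀ e ∈ es G, ¬ e.IsDiag := fun _ he =>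
  (Finset.mem_filter.1 (es_sub G he)).2

theorem es_fromEdgeSet {T : Finset (Sym2 (Fin n))} (hT : T ⊆ KE univ) :
    es (SimpleGraph.fromEdgeSet (T : Set (Sym2 (Fin n)))) = T := by
  ext e
  induction e with
  | _ a b =>
    rw [mem_es, SimpleGraph.fromEdgeSet_adj, Finset.mem_coe]
    constructor
    · exact fun h => h.1
    · intro h
      exact ⟨h, (mem_KE.1 (hT h)).2.2⟩

theorem card_graphs : Nat.card (SimpleGraph (Fin n)) = (KE (univ : Finset (Fin n))).powerset.card := by
  classical
  rw [Nat.card_eq_fintype_card, ← Finset.card_univ]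
  refine Finset.card_bij' (fun G _ => es G)
    (fun T _ => SimpleGraph.fromEdgeSet (T : Set (Sym2 (Fin n)))) ?_ ?_ ?_ ?_
  · intro G _; exact Finset.mem_powerset.2 (es_sub G)
  · intro T _; exact Finset.mem_univ _
  · intro G _
    apply es_inj
    exact es_fromEdgeSet (es_sub G)
  · intro T hT
    exact es_fromEdgeSet (Finset.mem_powerset.1 hT)

theorem union_KE (U : Finset (Fin n)) : Eo U ∪ KE U = KE univ := by
  ext e
  induction e with
  | _ a b =>
    rw [Finset.mem_union, mem_Eo, mem_KE, mem_KE]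
    simp only [Finset.mem_univ, true_and]
    tauto

theorem card_graphs_eq (U : Finset (Fin n)) : Nat.card (SimpleGraph (Fin n))
    = (Eo U).powerset.card * (KE U).powerset.card := by
  have h1 : Disjoint (Eo U) (KE U) := disj_Eo (Finset.Subset.refl _) (Finset.Subset.refl _)
  rw [card_graphs, ← union_KE U, Finset.card_powerset, Finset.card_union_of_disjoint h1, pow_add,
    Finset.card_powerset, Finset.card_powerset]

theorem card_KE_le (U : Finset (Fin n)) : (KE U).card ≤ U.card ^ 2 := by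
  have h1 : KE U ⊆ (U ×ˢ U).image fun p => s(p.1, p.2) := by
    intro e
    induction e with
    | _ a b =>
      intro h
      obtain ⟨ha, hb, _⟩ := mem_KE.1 h
      exact Finset.mem_image.2 ⟨(a, b), Finset.mem_product.2 ⟨ha, hb⟩, rfl⟩
  refine (Finset.card_le_card h1).trans (Finset.card_image_le.trans ?_)
  rw [Finset.card_product, pow_two]

theorem numCol_eq (G : SimpleGraph (Fin n)) (k : ℕ) : numCol G k = col (es G) (Fin k) := by
  unfold numCol col
  refine Nat.card_congr (Equiv.subtypeEquivRight fun c => ?_)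
  constructor
  · intro h u v huv; exact h u v (mem_es.1 huv)
  · intro h u v huv; exact h u v (mem_es.2 huv)

/-- the bad outer edge sets -/
noncomputable def Bd (U : Finset (Fin n)) (K : ℕ) (α β : Finset (Sym2 (Fin n))) :
    Finset (Finset (Sym2 (Fin n))) :=
  open Classical in (Eo U).powerset.filter fun T => ∀ i : Fin K, lam (i + 3) (T ∪ β) = lam (i + 3) (T ∪ α)

open Classical in
/-- the bad graphs for `U`, `α`, `β` -/
noncomputable def BG (U : Finset (Fin n)) (K : ℕ) (α β : Finset (Sym2 (Fin n))) :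
    Finset (SimpleGraph (Fin n)) :=
  univ.filter fun G => es G ∩ Eo U ∈ Bd U K α β

theorem card_BG (U : Finset (Fin n)) (K : ℕ) (α β : Finset (Sym2 (Fin n))) :
    (BG U K α β).card ≤ (Bd U K α β).card * (KE U).powerset.card := by
  classical
  rw [← Finset.card_product]
  refine Finset.card_le_card_of_injOn (fun G => (es G ∩ Eo U, es G ∩ KE U)) ?_ ?_
  · intro G hG
    have := (Finset.mem_filter.1 (Finset.mem_coe.1 hG)).2
    rw [Finset.mem_coe, Finset.mem_product]
    exact ⟨this, Finset.mem_powerset.2 Finset.inter_subset_right⟩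
  · intro G _ G' _ h
    have h1 : es G ∩ Eo U = es G' ∩ Eo U := congrArg Prod.fst h
    have h2 : es G ∩ KE U = es G' ∩ KE U := congrArg Prod.snd h
    apply es_inj
    rw [← Finset.inter_eq_left.2 (es_sub G), ← Finset.inter_eq_left.2 (es_sub G'), ← union_KE U,
      Finset.inter_union_distrib_left, Finset.inter_union_distrib_left, h1, h2]

/-- the bad graphs are covered -/
theorem bad_cover {u K : ℕ} (hu : u ≤ n) {G : SimpleGraph (Fin n)}
    (h : ¬ ∀ U : Finset (Fin n), U.card ≤ u → ∀ G₁ G₂, ChangedIn U G G₁ → ChangedIn U G G₂ →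
      SameChrom G₁ G₂ → G₁ = G₂) :
    ∃ U : Finset (Fin n), U.card = u ∧ ∃ α ⊆ KE U, ∃ β ⊆ KE U, α ≠ β ∧ G ∈ BG U K α β := by
  classical
  push Not at h
  obtain ⟨U0, hU0, G₁, G₂, h1, h2, hs, hne⟩ := h
  obtain ⟨U, hU0U, hU⟩ := Finset.exists_superset_card_eq hU0 (by simpa using hu)
  have key : ∀ G', ChangedIn U0 G G' → es G' = (es G ∩ Eo U) ∪ (es G' ∩ KE U) := by
    intro G' hG'
    ext e
    induction e with
    | _ a b =>
      rw [Finset.mem_union, Finset.mem_inter, Finset.mem_inter, mem_es, mem_es, mem_Eo, mem_KE]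
      constructor
      · intro h3
        by_cases h4 : a ∈ U ∧ b ∈ U
        · exact Or.inr ⟨h3, h4.1, h4.2, h3.ne⟩
        · refine Or.inl ⟨(hG' a b fun h5 => h4 ⟨hU0U h5.1, hU0U h5.2⟩).1 h3, h3.ne, h4⟩
      · rintro (⟨h3, _, h4⟩ | ⟨h3, _⟩)
        · exact (hG' a b fun h5 => h4 ⟨hU0U h5.1, hU0U h5.2⟩).2 h3
        · exact h3
  refine ⟨U, hU, es G₁ ∩ KE U, Finset.inter_subset_right, es G₂ ∩ KE U, Finset.inter_subset_right,
    ?_, ?_⟩
  · intro h3
    apply hne
    apply es_inj
    rw [key G₁ h1, key G₂ h2, h3]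
  · refine Finset.mem_filter.2 ⟨Finset.mem_univ _, Finset.mem_filter.2
      ⟨Finset.mem_powerset.2 Finset.inter_subset_right, fun i => ?_⟩⟩
    rw [← key G₁ h1, ← key G₂ h2]
    refine lam_congr (es_notDiag _) (es_notDiag _) (fun k => ?_) _
    rw [← numCol_eq, ← numCol_eq]
    exact (hs k).symm

open Classical in
/-- the number of bad graphs -/
theorem bad_count {u K L m : ℕ} (hu : u ≤ n) (hm : m.Prime) (hmK : K + 2 < m)
    (hL : L * (K + 1) + u ≤ n) :
    (((univ.filter fun G : SimpleGraph (Fin n) => ¬ ∀ U : Finset (Fin n), U.card ≤ u →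
      ∀ G₁ G₂, ChangedIn U G G₁ → ChangedIn U G G₂ → SameChrom G₁ G₂ → G₁ = G₂).card : ℕ) : ℝ)
      ≤ (n : ℝ) ^ u * 4 ^ (u ^ 2) * (((m : ℝ) ^ K)⁻¹ + etaK u K L m)
        * ((Nat.card (SimpleGraph (Fin n)) : ℕ) : ℝ) := by
  set ε : ℝ := ((m : ℝ) ^ K)⁻¹ + etaK u K L m with hε
  have hε0 : 0 ≤ ε := add_nonneg (by positivity) (Real.exp_pos _).le
  set N : ℝ := ((Nat.card (SimpleGraph (Fin n)) : ℕ) : ℝ) with hN
  have hN0 : 0 ≤ N := Nat.cast_nonneg _
  have h1 : (univ.filter fun G : SimpleGraph (Fin n) => ¬ ∀ U : Finset (Fin n), U.card ≤ u →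
      ∀ G₁ G₂, ChangedIn U G G₁ → ChangedIn U G G₂ → SameChrom G₁ G₂ → G₁ = G₂)
      ⊆ (Finset.powersetCard u (univ : Finset (Fin n))).biUnion fun U =>
        (((KE U).powerset ×ˢ (KE U).powerset).filter fun p => p.1 ≠ p.2).biUnion fun p =>
          BG U K p.1 p.2 := by
    intro G hG
    obtain ⟨U, hU, α, hα, β, hβ, hne, hG2⟩ := bad_cover (K := K) hu (Finset.mem_filter.1 hG).2
    rw [Finset.mem_biUnion]
    refine ⟨U, Finset.mem_powersetCard.2 ⟨Finset.subset_univ _, hU⟩, ?_⟩
    rw [Finset.mem_biUnion]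
    refine ⟨(α, β), Finset.mem_filter.2 ⟨Finset.mem_product.2 ⟨Finset.mem_powerset.2 hα,
      Finset.mem_powerset.2 hβ⟩, hne⟩, hG2⟩
  have h2 : ∀ U ∈ Finset.powersetCard u (univ : Finset (Fin n)),
      (((((KE U).powerset ×ˢ (KE U).powerset).filter fun p => p.1 ≠ p.2).biUnion fun p =>
          BG U K p.1 p.2).card : ℝ) ≤ 4 ^ (u ^ 2) * ε * N := by
    intro U hU
    have hUu : U.card = u := (Finset.mem_powersetCard.1 hU).2
    have h3 : ∀ p ∈ (((KE U).powerset ×ˢ (KE U).powerset).filter fun p => p.1 ≠ p.2),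
        ((BG U K p.1 p.2).card : ℝ) ≤ ε * N := by
      intro p hp
      obtain ⟨hp1, hp2⟩ := Finset.mem_filter.1 hp
      obtain ⟨hp3, hp4⟩ := Finset.mem_product.1 hp1
      have h4 := pair_bound (U := U) (Finset.mem_powerset.1 hp3) (Finset.mem_powerset.1 hp4) hp2
        (K := K) (L := L) hm hmK (by rw [hUu, Fintype.card_fin]; exact hL)
      rw [hUu] at h4
      have h5 : ((BG U K p.1 p.2).card : ℝ) ≤ (Bd U K p.1 p.2).card * (KE U).powerset.card := by
        exact_mod_cast card_BG U K p.1 p.2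
      have h6 : N = (Eo U).powerset.card * (KE U).powerset.card := by
        rw [hN, card_graphs_eq U]; push_cast; rfl
      have h7 : ((Bd U K p.1 p.2).card : ℝ) ≤ (Eo U).powerset.card * ε := by
        have : (Bd U K p.1 p.2) = (Eo U).powerset.filter fun T => ∀ i : Fin K,
            lam (i + 3) (T ∪ p.2) = lam (i + 3) (T ∪ p.1) := by
          unfold Bd
          ext T
          simp only [Finset.mem_filter]
        rw [this]
        convert h4
      refine h5.trans ?_
      rw [h6]
      have h8 := mul_le_mul_of_nonneg_right h7 (Nat.cast_nonneg (α := ℝ) (KE U).powerset.card)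
      linarith
    have h4 : (((KE U).powerset ×ˢ (KE U).powerset).filter fun p => p.1 ≠ p.2).card
        ≤ 4 ^ (u ^ 2) := by
      refine (Finset.card_filter_le _ _).trans ?_
      rw [Finset.card_product, Finset.card_powerset, ← mul_pow]
      refine Nat.pow_le_pow_right (by norm_num) ?_
      rw [← hUu]
      exact card_KE_le U
    calc _ ≤ ∑ p ∈ (((KE U).powerset ×ˢ (KE U).powerset).filter fun p => p.1 ≠ p.2),
          ((BG U K p.1 p.2).card : ℝ) := by exact_mod_cast Finset.card_biUnion_le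
      _ ≤ ∑ _p ∈ (((KE U).powerset ×ˢ (KE U).powerset).filter fun p => p.1 ≠ p.2), ε * N :=
          Finset.sum_le_sum h3
      _ = ((((KE U).powerset ×ˢ (KE U).powerset).filter fun p => p.1 ≠ p.2).card : ℝ) * (ε * N) := by
          rw [Finset.sum_const, nsmul_eq_mul]
      _ ≤ 4 ^ (u ^ 2) * (ε * N) := by
          refine mul_le_mul_of_nonneg_right ?_ (by positivity)
          exact_mod_cast h4
      _ = _ := by ring
  calc _ ≤ (((Finset.powersetCard u (univ : Finset (Fin n))).biUnion fun U =>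
        (((KE U).powerset ×ˢ (KE U).powerset).filter fun p => p.1 ≠ p.2).biUnion fun p =>
          BG U K p.1 p.2).card : ℝ) := by exact_mod_cast Finset.card_le_card h1
    _ ≤ ∑ U ∈ Finset.powersetCard u (univ : Finset (Fin n)),
        (((((KE U).powerset ×ˢ (KE U).powerset).filter fun p => p.1 ≠ p.2).biUnion fun p =>
          BG U K p.1 p.2).card : ℝ) := by exact_mod_cast Finset.card_biUnion_le
    _ ≤ ∑ _U ∈ Finset.powersetCard u (univ : Finset (Fin n)), 4 ^ (u ^ 2) * ε * N :=
        Finset.sum_le_sum h2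
    _ = (Nat.choose n u : ℝ) * (4 ^ (u ^ 2) * ε * N) := by
        rw [Finset.sum_const, nsmul_eq_mul, Finset.card_powersetCard, Finset.card_univ,
          Fintype.card_fin]
    _ ≤ (n : ℝ) ^ u * (4 ^ (u ^ 2) * ε * N) := by
        refine mul_le_mul_of_nonneg_right ?_ (by positivity)
        exact_mod_cast Nat.choose_le_pow n u
    _ = _ := by ring

end Pool.Agent.Lib_helper77.CP
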