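import Mathlib

/-!
# MP_8a986b_co: Cauchy-Schwarz differencing in blocks of variables
-/

set_option autoImplicit false
set_option linter.unusedSectionVars false

open Finset

namespace Pool.Agent.Lib_helper77.CP

/-- The average of a complex function. -/
noncomputable def av {Y : Type} [Fintype Y] (f : Y → ℂ) : ℂ := (∑ y, f y) / Fintype.card Y

theorem av_norm_le {Y : Type} [Fintype Y] [Nonempty Y] {f : Y → ℂ} {c : ℝ} (h : ∀ y, ‖f y‖ ≤ c) :
    ‖av f‖ ≤ c := by
  unfold av
  rw [norm_div, Complex.norm_natCast, div_le_iff₀ (by exact_mod_cast Fintype.card_pos)]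
  calc ‖∑ y, f y‖ ≤ ∑ y, ‖f y‖ := norm_sum_le _ _
    _ ≤ ∑ _y : Y, c := Finset.sum_le_sum fun y _ => h y
    _ = c * Fintype.card Y := by rw [Finset.sum_const, Finset.card_univ, nsmul_eq_mul, mul_comm]

theorem av_prod {X Y : Type} [Fintype X] [Fintype Y] (f : X × Y → ℂ) :
    av f = av fun x => av fun y => f (x, y) := by
  unfold av
  rw [Fintype.sum_prod_type, Fintype.card_prod]
  simp only []
  rw [← Finset.sum_div, div_div, mul_comm]
  push_cast
  rfl

theorem av_equiv {X Y : Type} [Fintype X] [Fintype Y] (e : X ≃ Y) (f : Y → ℂ) :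
    av f = av fun x => f (e x) := by
  unfold av
  rw [Fintype.card_congr e, Equiv.sum_comp e f]

theorem av_const {Y : Type} [Fintype Y] [Nonempty Y] (c : ℂ) : av (fun _ : Y => c) = c := by
  unfold av
  rw [Finset.sum_const, Finset.card_univ, nsmul_eq_mul, mul_comm, mul_div_assoc, div_self, mul_one]
  exact_mod_cast Fintype.card_ne_zero

/-- Cauchy-Schwarz -/
theorem av_cs {X Y : Type} [Fintype X] [Fintype Y] [Nonempty X] [Nonempty Y] (f : X → Y → ℂ) :
    ‖av fun y => av fun x => f x y‖ ^ 2
      ≤ ‖av fun y => av fun x => av fun x' => f x y * (starRingEnd ℂ) (f x' y)‖ := by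
  have h1 : ∀ y, (av fun x => av fun x' => f x y * (starRingEnd ℂ) (f x' y))
      = ((‖av fun x => f x y‖ ^ 2 : ℝ) : ℂ) := by
    intro y
    have h2 : (av fun x => av fun x' => f x y * (starRingEnd ℂ) (f x' y))
        = (av fun x => f x y) * (starRingEnd ℂ) (av fun x => f x y) := by
      unfold av
      simp only [map_div₀, map_sum, map_natCast]
      rw [div_mul_div_comm, Finset.sum_mul_sum, ← Finset.sum_div, div_div]
    rw [h2, Complex.mul_conj, Complex.normSq_eq_norm_sq]
  simp only [h1]
  have h3 : (av fun y => ((‖av fun x => f x y‖ ^ 2 : ℝ) : ℂ))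
      = (((∑ y, ‖av fun x => f x y‖ ^ 2) / Fintype.card Y : ℝ) : ℂ) := by
    unfold av
    push_cast
    rfl
  have hY : (0 : ℝ) < Fintype.card Y := by exact_mod_cast Fintype.card_pos
  rw [h3, Complex.norm_real, Real.norm_of_nonneg (by positivity)]
  have h4 : ‖av fun y => av fun x => f x y‖ ≤ (∑ y, ‖av fun x => f x y‖) / Fintype.card Y := by
    conv_lhs => unfold av
    rw [norm_div, Complex.norm_natCast]
    exact div_le_div_of_nonneg_right (norm_sum_le _ _) hY.le
  have h5 := Finset.sum_mul_sq_le_sq_mul_sq (Finset.univ : Finset Y) (fun _ => (1 : ℝ))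
    (fun y => ‖av fun x => f x y‖)
  simp only [one_mul, one_pow, Finset.sum_const, Finset.card_univ, nsmul_eq_mul, mul_one] at h5
  calc ‖av fun y => av fun x => f x y‖ ^ 2
      ≤ ((∑ y, ‖av fun x => f x y‖) / Fintype.card Y) ^ 2 :=
        pow_le_pow_left₀ (norm_nonneg _) h4 2
    _ ≤ _ := by
        rw [div_pow, div_le_div_iff₀ (by positivity) hY]
        nlinarith [h5]

theorem av_comm {X Y : Type} [Fintype X] [Fintype Y] (f : X → Y → ℂ) :
    (av fun x => av fun y => f x y) = av fun y => av fun x => f x y := by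
  unfold av
  rw [← Finset.sum_div, ← Finset.sum_div, Finset.sum_comm, div_div, div_div, mul_comm]

/-- The sign of a pattern. -/
def sg {ι : Type} [Fintype ι] (ω : ι → Bool) : ℤ := ∏ i, if ω i then -1 else 1

section char

variable {A : Type} [AddCommGroup A] [Finite A]

/-- The repeated Cauchy-Schwarz inequality. -/
theorem gowers (ψ : AddChar A ℂ) {X : Type} [Fintype X] [Nonempty X] (s : ℕ) :
    ∀ {Y : Type} [Fintype Y] [Nonempty Y] (G : (Fin s → X) → Y → A),
    ‖av fun y => av fun x : Fin s → X => ψ (G x y)‖ ^ (2 ^ s)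
      ≤ ‖av fun y => av fun p : Fin s → X × X =>
        ψ (∑ ω : Fin s → Bool, sg ω • G (fun i => if ω i then (p i).2 else (p i).1) y)‖ := by
  induction s with
  | zero =>
    intro Y _ _ G
    rw [pow_zero, pow_one]
    apply le_of_eq
    congr 2
    funext y
    have h1 : ∀ (Z : Type) [Fintype Z] (f : (Fin 0 → Z) → ℂ), av f = f default := by
      intro Z _ f
      unfold av
      rw [Fintype.card_unique, Nat.cast_one, div_one, Fintype.sum_unique]
    rw [h1, h1, Fintype.sum_unique]
    congr 1
    have h2 : ∀ ω : Fin 0 → Bool, sg ω = 1 := fun ω => Fin.prod_univ_zero _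
    rw [h2, one_smul]
    congr 1
    exact Subsingleton.elim _ _
  | succ s ih =>
    intro Y _ _ G
    -- split off the first variable
    have e1 : (av fun y => av fun x : Fin (s + 1) → X => ψ (G x y))
        = av fun q : Y × X => av fun x : Fin s → X =>
          ψ (G (Fin.cons (α := fun _ => X) q.2 x) q.1) := by
      rw [av_prod]
      congr 1
      funext y
      rw [av_equiv (Fin.consEquiv (fun _ : Fin (s + 1) => X)), av_prod]
      rfl
    have h1 := ih (Y := Y × X) (fun x q => G (Fin.cons (α := fun _ => X) q.2 x) q.1)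
    rw [e1, pow_succ, pow_mul]
    refine (pow_le_pow_left₀ (by positivity) h1 2).trans ?_
    -- move the first variable inside
    let H : X → (Y × (Fin s → X × X)) → A := fun x0 r =>
      ∑ ω : Fin s → Bool, sg ω • G (Fin.cons (α := fun _ => X) x0
        (fun i => if ω i then (r.2 i).2 else (r.2 i).1)) r.1
    have e2 : (av fun q : Y × X => av fun p : Fin s → X × X =>
        ψ (∑ ω : Fin s → Bool, sg ω • G (Fin.cons (α := fun _ => X) q.2
          (fun i => if ω i then (p i).2 else (p i).1)) q.1))
        = av fun r : Y × (Fin s → X × X) => av fun x0 : X => ψ (H x0 r) := by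
      rw [av_prod, av_prod]
      congr 1
      funext y
      rw [av_comm]
    rw [e2]
    refine (av_cs fun x0 r => ψ (H x0 r)).trans ?_
    apply le_of_eq
    congr 1
    have e3 : ∀ (r : Y × (Fin s → X × X)) (x0 x0' : X), ψ (H x0 r) * (starRingEnd ℂ) (ψ (H x0' r))
        = ψ (∑ ω : Fin (s + 1) → Bool, sg ω • G (fun i => if ω i then
          ((Fin.cons (α := fun _ => X × X) (x0, x0') r.2 : Fin (s + 1) → X × X) i).2 else
          ((Fin.cons (α := fun _ => X × X) (x0, x0') r.2 : Fin (s + 1) → X × X) i).1) r.1) := by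
      intro r x0 x0'
      rw [← AddChar.map_neg_eq_conj, ← AddChar.map_add_eq_mul]
      congr 1
      rw [← Equiv.sum_comp (Fin.consEquiv (fun _ : Fin (s + 1) => Bool)), Fintype.sum_prod_type,
        Fintype.sum_bool]
      have e4 : ∀ (b : Bool) (ω : Fin s → Bool),
          sg ((Fin.consEquiv (fun _ : Fin (s + 1) => Bool)) (b, ω)) = (if b then -1 else 1) * sg ω := by
        intro b ω
        unfold sg
        rw [Fin.prod_univ_succ]
        rfl
      have e5 : ∀ (b : Bool) (ω : Fin s → Bool), (fun i => if
          ((Fin.consEquiv (fun _ : Fin (s + 1) => Bool)) (b, ω)) i then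
          ((Fin.cons (α := fun _ => X × X) (x0, x0') r.2 : Fin (s + 1) → X × X) i).2 else
          ((Fin.cons (α := fun _ => X × X) (x0, x0') r.2 : Fin (s + 1) → X × X) i).1)
          = Fin.cons (α := fun _ => X) (if b then x0' else x0)
            (fun i => if ω i then (r.2 i).2 else (r.2 i).1) := by
        intro b ω
        funext i
        refine Fin.cases ?_ (fun i => ?_) i
        · cases b <;> rfl
        · rfl
      simp only [e4, e5]
      simp only [if_true, Bool.false_eq_true, if_false, one_mul, neg_one_mul, neg_smul,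
        Finset.sum_neg_distrib]
      rw [add_comm]
    simp only [e3]
    rw [av_prod]
    congr 1
    funext y
    rw [av_equiv (Fin.consEquiv (fun _ : Fin (s + 1) => X × X)), av_prod, av_prod]
    conv_lhs => rw [av_comm]
    congr 1
    funext x0
    rw [av_comm]
    rfl

end char

end Pool.Agent.Lib_helper77.CP
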