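import Pool.Agent.Lib_helper77.CP.Final

/-!
# MP_8a986b_co: almost every graph is locally determined by its chromatic polynomial, the limit
-/

set_option autoImplicit false

open Finset Filter Topology

namespace Pool.Agent.Lib_helper77.CP

variable {n : ℕ}

/-- The property for all vertex sets of at most `u` vertices. -/
def Good (u : ℕ) (G : SimpleGraph (Fin n)) : Prop :=
  ∀ U : Finset (Fin n), U.card ≤ u → ∀ G₁ G₂, ChangedIn U G G₁ → ChangedIn U G G₂ →
    SameChrom G₁ G₂ → G₁ = G₂

/-- the vertices touched by the difference of two graphs -/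
theorem touched (G G' : SimpleGraph (Fin n)) :
    ∃ U : Finset (Fin n), U.card ≤ 2 * editDist G G' ∧ ChangedIn U G G' := by
  classical
  have hfin : (symmDiff G.edgeSet G'.edgeSet).Finite := Set.toFinite _
  refine ⟨hfin.toFinset.biUnion fun e => e.toFinset, ?_, ?_⟩
  · refine Finset.card_biUnion_le.trans ?_
    have h1 : ∀ e ∈ hfin.toFinset, e.toFinset.card ≤ 2 := by
      intro e _
      rw [Sym2.card_toFinset]
      split_ifs <;> omega
    refine (Finset.sum_le_card_nsmul _ _ 2 h1).trans ?_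
    rw [smul_eq_mul, editDist, Set.ncard_eq_toFinset_card _ hfin, mul_comm]
  · intro a b hab
    by_contra hc
    apply hab
    have h2 : s(a, b) ∈ symmDiff G.edgeSet G'.edgeSet := by
      rw [Set.mem_symmDiff, SimpleGraph.mem_edgeSet, SimpleGraph.mem_edgeSet]
      tauto
    constructor
    · rw [Finset.mem_biUnion]
      exact ⟨s(a, b), hfin.mem_toFinset.2 h2, by simp⟩
    · rw [Finset.mem_biUnion]
      exact ⟨s(a, b), hfin.mem_toFinset.2 h2, by simp⟩

theorem changed_mono {U V : Finset (Fin n)} (h : U ⊆ V) {G G' : SimpleGraph (Fin n)}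
    (hG : ChangedIn U G G') : ChangedIn V G G' := fun a b hab =>
  hG a b fun h2 => hab ⟨h h2.1, h h2.2⟩

theorem locDet_of_good {u : ℕ} (hu : ∀ s : ℕ, 10000 * s ^ 2 ≤ Nat.log 2 n → s ≤ u)
    {G : SimpleGraph (Fin n)} (h : Good u G) : LocDet 160000 G where
  inside U hU := h U (hu _ (by omega))
  near G₁ G₂ h1 h2 hs := by
    classical
    obtain ⟨U1, hU1, hc1⟩ := touched G G₁
    obtain ⟨U2, hU2, hc2⟩ := touched G G₂
    refine h (U1 ∪ U2) (hu _ ?_) G₁ G₂ (changed_mono Finset.subset_union_left hc1)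
      (changed_mono Finset.subset_union_right hc2) hs
    have h3 := Finset.card_union_le U1 U2
    rcases le_total (editDist G G₁) (editDist G G₂) with h4 | h4
    · have h5 : (U1 ∪ U2).card ≤ 4 * editDist G G₂ := by omega
      calc 10000 * (U1 ∪ U2).card ^ 2 ≤ 10000 * (4 * editDist G G₂) ^ 2 := by gcongr
        _ = 160000 * editDist G G₂ ^ 2 := by ring
        _ ≤ _ := h2
    · have h5 : (U1 ∪ U2).card ≤ 4 * editDist G G₁ := by omega
      calc 10000 * (U1 ∪ U2).card ^ 2 ≤ 10000 * (4 * editDist G G₁) ^ 2 := by gcongr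
        _ = 160000 * editDist G G₁ ^ 2 := by ring
        _ ≤ _ := h1

/-- the good graphs are almost all -/
theorem good_frac {n : ℕ} (hl : 1000 ≤ Nat.log 2 n) :
    (1 - 2 * ((2 : ℝ) ^ Nat.log 2 n)⁻¹) * ((Nat.card (SimpleGraph (Fin n)) : ℕ) : ℝ)
      ≤ ((Nat.card {G : SimpleGraph (Fin n) // LocDet 160000 G} : ℕ) : ℝ) := by
  classical
  set l := Nat.log 2 n with hldef
  set u := Nat.sqrt (l / 10000) with hudef
  have hn0 : n ≠ 0 := by rintro rfl; simp at hldef; omega
  have hln : 2 ^ l ≤ n := Nat.pow_log_le_self 2 hn0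
  have hlt : l < 2 ^ l := Nat.lt_two_pow_self
  have hu2 : 10000 * u ^ 2 ≤ l := by
    have h1 : u ^ 2 ≤ l / 10000 := by rw [hudef, pow_two]; exact Nat.sqrt_le _
    omega
  have hul : u ≤ l := by nlinarith
  have hus : ∀ s : ℕ, 10000 * s ^ 2 ≤ l → s ≤ u := by
    intro s hs
    rw [hudef, Nat.le_sqrt, Nat.le_div_iff_mul_le (by norm_num)]
    nlinarith
  obtain ⟨m, hm, hm1, hm2⟩ := Nat.exists_prime_lt_and_le_two_mul (2 ^ (l / 4)) (by positivity)
  have hmK : (8 * u + 8) + 2 < m := by
    have h2 : l / 4 < 2 ^ (l / 4) := Nat.lt_two_pow_self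
    have h3 : 100 * u ≤ l := by nlinarith
    omega
  have hL : ((n - u) / (8 * u + 9)) * ((8 * u + 8) + 1) + u ≤ n := by
    have := Nat.div_mul_le_self (n - u) (8 * u + 9)
    have h4 : u ≤ n := by omega
    have h5 : (8 * u + 8) + 1 = 8 * u + 9 := by ring
    rw [h5]; omega
  have hB := bad_count (u := u) (K := 8 * u + 8) (by omega) hm hmK hL
  have hN := num_total (n := n) (l := l) (u := u) (m := m) hldef.symm hl hu2 hm1 hm2
  set N : ℝ := ((Nat.card (SimpleGraph (Fin n)) : ℕ) : ℝ) with hNdef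
  have hN0 : 0 ≤ N := Nat.cast_nonneg _
  have h6 := hB.trans (mul_le_mul_of_nonneg_right hN hN0)
  have h7 : (((univ.filter fun G : SimpleGraph (Fin n) => Good u G).card : ℕ) : ℝ)
      + (((univ.filter fun G : SimpleGraph (Fin n) => ¬ Good u G).card : ℕ) : ℝ) = N := by
    rw [hNdef, Nat.card_eq_fintype_card, ← Finset.card_univ]
    exact_mod_cast Finset.card_filter_add_card_filter_not (s := (univ : Finset (SimpleGraph (Fin n)))) (fun G => Good u G)
  have h8 : (univ.filter fun G : SimpleGraph (Fin n) => Good u G).card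
      ≤ Nat.card {G : SimpleGraph (Fin n) // LocDet 160000 G} := by
    rw [Nat.card_eq_fintype_card, Fintype.card_subtype]
    refine Finset.card_le_card fun G hG => ?_
    rw [Finset.mem_filter] at hG ⊢
    exact ⟨hG.1, locDet_of_good hus hG.2⟩
  have h9 : (((univ.filter fun G : SimpleGraph (Fin n) => ¬ Good u G).card : ℕ) : ℝ)
      ≤ 2 * ((2 : ℝ) ^ l)⁻¹ * N := by
    refine le_trans (le_of_eq ?_) h6
    refine congrArg (Nat.cast (R := ℝ)) (congrArg Finset.card ?_)
    ext G
    simp only [Finset.mem_filter, Good]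
  have h10 : (((univ.filter fun G : SimpleGraph (Fin n) => Good u G).card : ℕ) : ℝ)
      ≤ ((Nat.card {G : SimpleGraph (Fin n) // LocDet 160000 G} : ℕ) : ℝ) := by exact_mod_cast h8
  linarith

theorem log_tendsto : Tendsto (fun n => Nat.log 2 n) atTop atTop := by
  refine tendsto_atTop.2 fun b => ?_
  filter_upwards [eventually_ge_atTop (2 ^ b)] with n hn
  calc b = Nat.log 2 (2 ^ b) := (Nat.log_pow (by norm_num) b).symm
    _ ≤ Nat.log 2 n := Nat.log_mono_right hn

/-- **Almost every graph is locally determined by its chromatic polynomial.** -/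
theorem local_chromatic :
    Tendsto (fun n => (Nat.card {G : SimpleGraph (Fin n) // LocDet 160000 G} : ℝ)
      / Nat.card (SimpleGraph (Fin n))) atTop (𝓝 1) := by
  have h1 : Tendsto (fun n : ℕ => 1 - 2 * ((2 : ℝ) ^ Nat.log 2 n)⁻¹) atTop (𝓝 1) := by
    have h2 : Tendsto (fun l : ℕ => ((2 : ℝ) ^ l)⁻¹) atTop (𝓝 0) := by
      have := tendsto_pow_atTop_nhds_zero_of_lt_one (r := (1 / 2 : ℝ)) (by norm_num) (by norm_num)
      refine this.congr fun l => ?_
      rw [one_div, inv_pow]
    have h3 := (h2.comp log_tendsto).const_mul 2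
    have h4 := h3.const_sub 1
    simpa using h4
  refine tendsto_of_tendsto_of_tendsto_of_le_of_le' h1 tendsto_const_nhds ?_ ?_
  · filter_upwards [log_tendsto.eventually_ge_atTop 1000] with n hn
    have hpos : (0 : ℝ) < ((Nat.card (SimpleGraph (Fin n)) : ℕ) : ℝ) := by
      exact_mod_cast Nat.card_pos
    rw [le_div_iff₀ hpos]
    exact good_frac hn
  · refine Eventually.of_forall fun n => ?_
    have hpos : (0 : ℝ) < ((Nat.card (SimpleGraph (Fin n)) : ℕ) : ℝ) := by
      exact_mod_cast Nat.card_pos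
    rw [div_le_one hpos]
    exact_mod_cast Nat.card_le_card_of_injective (fun G : {G : SimpleGraph (Fin n) // LocDet 160000 G} => G.1)
      Subtype.val_injective

end Pool.Agent.Lib_helper77.CP
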