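import Pool.Agent.Lib_helper77.CP.Comb

/-!
# MP_8a986b_co: the mixed difference of a function with small monomials
-/

set_option autoImplicit false
set_option linter.unusedSectionVars false

open Finset

namespace Pool.Agent.Lib_helper77.CP

theorem alt_sum {ι : Type} [Fintype ι] [DecidableEq ι] (A B : ι → ℤ) :
    ∑ ω : ι → Bool, sg ω * ∏ i, (if ω i then B i else A i) = ∏ i, (A i - B i) := by
  have h1 : ∀ ω : ι → Bool, sg ω * ∏ i, (if ω i then B i else A i)
      = ∏ i, (if ω i then - B i else A i) := by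
    intro ω
    unfold sg
    rw [← Finset.prod_mul_distrib]
    refine Finset.prod_congr rfl fun i _ => ?_
    split_ifs <;> ring
  simp only [h1]
  have h2 : ∀ i, A i - B i = ∑ b : Bool, (if b then - B i else A i) := by
    intro i
    rw [Fintype.sum_bool]
    simp
    ring
  simp only [h2]
  rw [Finset.prod_univ_sum, Fintype.piFinset_univ]

variable {V : Type} [Fintype V] [DecidableEq V] {U : Finset V} {L q : ℕ} {v : Fin L → Fin q → V}
  {m : ℕ}

/-- the values of the coordinates -/
def zz (x : Fin (np q) → Fin L → Bool) (y : Fin L → U × Fin q → Bool) :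
    (Fin (np q) × Fin L) ⊕ (Fin L × (U × Fin q)) → Bool :=
  Sum.elim (fun p => x p.1 p.2) (fun p => y p.1 p.2)

open Classical in
/-- the polynomial of a copy -/
noncomputable def Dl (v : Fin L → Fin q → V) (Gh : Finset (Sym2 V) → ZMod m) (l : Fin L)
    (y : U × Fin q → Bool) : ZMod m :=
  ∑ a : Finset (U × Fin q), if (∀ k ∈ a, y k = true) then Gh (Sla U v l a) else 0

/-- some value of the polynomial of a copy is not zero -/
theorem Dl_ne {Gh : Finset (Sym2 V) → ZMod m} {l : Fin L} {a : Finset (U × Fin q)}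
    (h : Gh (Sla U v l a) ≠ 0) : ∃ y : U × Fin q → Bool, Dl v Gh l y ≠ 0 := by
  classical
  by_contra h0
  push Not at h0
  have h1 : ∀ T ⊆ a, (0 : ZMod m) = ∑ S ∈ T.powerset, Gh (Sla U v l S) := by
    intro T _
    rw [← h0 (fun k => decide (k ∈ T)), Dl, ← Finset.sum_filter]
    refine Finset.sum_congr ?_ fun _ _ => rfl
    ext S
    rw [Finset.mem_filter, Finset.mem_powerset]
    simp only [Finset.mem_univ, true_and, decide_eq_true_eq]
    exact Iff.rfl
  have h2 := mob_unique (R := ZMod m) (g := fun _ => 0) (a := fun S => Gh (Sla U v l S)) h1 a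
    (Finset.Subset.refl a)
  have h3 : ∀ T ⊆ a, (0 : ZMod m) = ∑ S ∈ T.powerset, (0 : ZMod m) := by
    intro T _; rw [Finset.sum_const_zero]
  have h4 := mob_unique (R := ZMod m) (g := fun _ => 0) (a := fun _ => 0) h3 a
    (Finset.Subset.refl a)
  exact h (h2.trans h4.symm)

theorem sub_ow (h : GoodC U v) {S T : Finset (Sym2 V)} {x : Fin (np q) → Fin L → Bool}
    {y : Fin L → U × Fin q → Bool} :
    S ⊆ ow (ed U v) T (zz x y) ↔ ((∀ e ∈ S, (∀ i, ed U v i ≠ e) → e ∈ T) ∧
      (∀ l k, eu U v l k ∈ S → y l k = true)) ∧ ∀ i, ∀ l, ep v l i ∈ S → x i l = true := by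
  constructor
  · intro hS
    refine ⟨⟨fun e he hi => (mem_ow_of_notMem hi).1 (hS he), fun l k he => ?_⟩, fun i l he => ?_⟩
    · have := hS he
      have h1 : eu U v l k = ed U v (Sum.inr (l, k)) := rfl
      rw [h1, mem_ow (ed_inj h)] at this
      exact this
    · have := hS he
      have h1 : ep v l i = ed U v (Sum.inl (i, l)) := rfl
      rw [h1, mem_ow (ed_inj h)] at this
      exact this
  · rintro ⟨⟨h1, h2⟩, h3⟩ e he
    by_cases hi : ∃ i, ed U v i = e
    · obtain ⟨i, rfl⟩ := hi
      rw [mem_ow (ed_inj h)]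
      rcases i with ⟨i, l⟩ | ⟨l, k⟩
      · exact h3 i l he
      · exact h2 l k he
    · push Not at hi
      exact (mem_ow_of_notMem hi).2 (h1 e he hi)

theorem ow_sub (h : GoodC U v) {T : Finset (Sym2 V)} (hT : T ⊆ Eo U)
    (z : (Fin (np q) × Fin L) ⊕ (Fin L × (U × Fin q)) → Bool) : ow (ed U v) T z ⊆ Eo U := by
  intro x hx
  by_cases h1 : ∃ i, ed U v i = x
  · obtain ⟨i, rfl⟩ := h1; exact ed_mem h i
  · push Not at h1
    exact hT ((mem_ow_of_notMem h1).1 hx)

theorem mixed (h : GoodC U v) (hq : 2 ≤ q) {Gh : Finset (Sym2 V) → ZMod m}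
    (hQ1 : ∀ S ⊆ Eo U, q + 1 ≤ (vs S \ U).card → Gh S = 0) {T : Finset (Sym2 V)} (hT : T ⊆ Eo U)
    (p : Fin (np q) → (Fin L → Bool) × (Fin L → Bool)) (y : Fin L → U × Fin q → Bool) :
    ∑ ω : Fin (np q) → Bool, sg ω • (∑ S ∈ (ow (ed U v) T
        (zz (fun i => if ω i then (p i).2 else (p i).1) y)).powerset, Gh S)
      = ∑ l, (∏ i, (b2 ((p i).1 l) - b2 ((p i).2 l))) • Dl v Gh l (y l) := by
  classical
  let φ : Finset (Sym2 V) → Fin (np q) → (Fin L → Bool) → ℤ := fun S i x =>
    if (∀ l, ep v l i ∈ S → x l = true) then 1 else 0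
  let g : Finset (Sym2 V) → ZMod m := fun S =>
    if ((∀ e ∈ S, (∀ i, ed U v i ≠ e) → e ∈ T) ∧
      (∀ l k, eu U v l k ∈ S → y l k = true)) then Gh S else 0
  -- (a), (b)
  have h1 : ∀ x : Fin (np q) → Fin L → Bool, (∑ S ∈ (ow (ed U v) T (zz x y)).powerset, Gh S)
      = ∑ S ∈ (Eo U).powerset, (∏ i, φ S i (x i)) • g S := by
    intro x
    have h2 : (ow (ed U v) T (zz x y)).powerset
        = (Eo U).powerset.filter fun S => S ⊆ ow (ed U v) T (zz x y) := by
      ext S
      rw [Finset.mem_filter, Finset.mem_powerset, Finset.mem_powerset]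
      exact ⟨fun h3 => ⟨h3.trans (ow_sub h hT _), h3⟩, fun h3 => h3.2⟩
    rw [h2, Finset.sum_filter]
    refine Finset.sum_congr rfl fun S _ => ?_
    by_cases h3 : ∀ i, ∀ l, ep v l i ∈ S → x i l = true
    · have h4 : ∏ i, φ S i (x i) = 1 := Finset.prod_eq_one fun i _ => if_pos (h3 i)
      rw [h4, one_smul]
      by_cases h5 : ((∀ e ∈ S, (∀ i, ed U v i ≠ e) → e ∈ T) ∧
        (∀ l k, eu U v l k ∈ S → y l k = true))
      · rw [if_pos ((sub_ow h).2 ⟨h5, h3⟩)]
        exact (if_pos h5).symm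
      · rw [if_neg fun h6 => h5 ((sub_ow h).1 h6).1]
        exact (if_neg h5).symm
    · rw [if_neg fun h6 => h3 ((sub_ow h).1 h6).2]
      push Not at h3
      obtain ⟨i, l, h4, h5⟩ := h3
      have h6 : ∏ i, φ S i (x i) = 0 :=
        Finset.prod_eq_zero (Finset.mem_univ i) (if_neg fun h7 => h5 (h7 l h4))
      rw [h6, zero_smul]
  -- (c)
  have h2 : ∑ ω : Fin (np q) → Bool, sg ω • (∑ S ∈ (ow (ed U v) T
        (zz (fun i => if ω i then (p i).2 else (p i).1) y)).powerset, Gh S)
      = ∑ S ∈ (Eo U).powerset, (∏ i, (φ S i (p i).1 - φ S i (p i).2)) • g S := by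
    simp only [h1, Finset.smul_sum]
    rw [Finset.sum_comm]
    refine Finset.sum_congr rfl fun S _ => ?_
    simp only [smul_smul]
    rw [← Finset.sum_smul, ← alt_sum]
    congr 1
    refine Finset.sum_congr rfl fun ω _ => ?_
    congr 1
    refine Finset.prod_congr rfl fun i _ => ?_
    split_ifs <;> rfl
  rw [h2]
  -- (d)
  have h3 : ∀ S ∈ (Eo U).powerset,
      S ∉ (Finset.univ.image fun r : Fin L × Finset (U × Fin q) => Sla U v r.1 r.2) →
      (∏ i, (φ S i (p i).1 - φ S i (p i).2)) • g S = 0 := by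
    intro S hS hS2
    rw [Finset.mem_powerset] at hS
    by_cases hc : (vs S \ U).card ≤ q
    · by_cases hA : ∀ i, ∃ l, ep v l i ∈ S
      · obtain ⟨l, a, hla⟩ := survive h hq hS hc hA
        exact absurd (Finset.mem_image.2 ⟨(l, a), Finset.mem_univ _, hla.symm⟩) hS2
      · push Not at hA
        obtain ⟨i, hi⟩ := hA
        have h4 : φ S i (p i).1 - φ S i (p i).2 = 0 := by
          have h5 : ∀ x, φ S i x = 1 := fun x => if_pos fun l hl => absurd hl (hi l)
          rw [h5, h5, sub_self]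
        rw [Finset.prod_eq_zero (Finset.mem_univ i) h4, zero_smul]
    · have h4 : g S = 0 := by
        have h5 := hQ1 S hS (by omega)
        show (if _ then Gh S else 0) = 0
        rw [h5, ite_self]
      rw [h4, smul_zero]
  have h4 : (Finset.univ.image fun r : Fin L × Finset (U × Fin q) => Sla U v r.1 r.2)
      ⊆ (Eo U).powerset := by
    intro S hS
    obtain ⟨r, _, rfl⟩ := Finset.mem_image.1 hS
    exact Finset.mem_powerset.2 (Sla_sub h _ _)
  rw [← Finset.sum_subset h4 h3, Finset.sum_image]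
  · rw [Fintype.sum_prod_type]
    refine Finset.sum_congr rfl fun l _ => ?_
    show ∑ a : Finset (U × Fin q), (∏ i, (φ (Sla U v l a) i (p i).1 - φ (Sla U v l a) i (p i).2)) •
      g (Sla U v l a) = _
    rw [Dl, Finset.smul_sum]
    refine Finset.sum_congr rfl fun a _ => ?_
    congr 1
    · refine Finset.prod_congr rfl fun i _ => ?_
      have h5 : ∀ x, φ (Sla U v l a) i x = b2 (x l) := by
        intro x
        show (if (∀ l', ep v l' i ∈ Sla U v l a → x l' = true) then (1 : ℤ) else 0)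
          = if x l = true then 1 else 0
        congr 1
        rw [eq_iff_iff]
        constructor
        · intro h6; exact h6 l ((ep_mem_Sla h).2 rfl)
        · intro h6 l' hl'
          rw [(ep_mem_Sla h).1 hl']; exact h6
      rw [h5, h5]
    · show (if _ then Gh (Sla U v l a) else 0) = _
      congr 1
      rw [eq_iff_iff]
      constructor
      · rintro ⟨_, h6⟩ k hk
        exact h6 l k ((eu_mem_Sla h).2 ⟨rfl, hk⟩)
      · intro h6
        constructor
        · intro e he hi
          exfalso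
          rcases Finset.mem_union.1 he with h7 | h7
          · obtain ⟨i, _, h8⟩ := Finset.mem_image.1 h7
            exact hi (Sum.inl (i, l)) h8
          · obtain ⟨k, _, h8⟩ := Finset.mem_image.1 h7
            exact hi (Sum.inr (l, k)) h8
        · intro l' k hk
          obtain ⟨h7, h8⟩ := (eu_mem_Sla h).1 hk
          rw [h7]; exact h6 k h8
  · intro r _ r' _ hr
    obtain ⟨h5, h6⟩ := Sla_inj h hq hr
    exact Prod.ext h5 h6

end Pool.Agent.Lib_helper77.CP
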