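import Pool.Agent.Lib_helper77.CP.Bound

/-!
# MP_8a986b_co: two different graphs on `U` have different invariants for almost all sets of outer edges
-/

set_option autoImplicit false
set_option linter.unusedSectionVars false

open Finset

namespace Pool.Agent.Lib_helper77.CP

variable {V : Type} [Fintype V] [DecidableEq V] {U : Finset V}

/-- the sum of the transforms over the subsets of `β` -/
noncomputable def ghb (β : Finset (Sym2 V)) (j : ℕ) (S : Finset (Sym2 V)) : ℤ :=
  ∑ B ∈ β.powerset, lh j (S ∪ B)

/-- the transform of the difference -/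
noncomputable def gh (α β : Finset (Sym2 V)) (j : ℕ) (S : Finset (Sym2 V)) : ℤ :=
  ghb β j S - ghb α j S

theorem disj_Eo {T β : Finset (Sym2 V)} (hT : T ⊆ Eo U) (hβ : β ⊆ KE U) : Disjoint T β := by
  rw [Finset.disjoint_left]
  intro e h1 h2
  induction e with
  | _ a b =>
    have h3 := mem_Eo.1 (hT h1)
    have h4 := mem_KE.1 (hβ h2)
    exact h3.2 ⟨h4.1, h4.2.1⟩

theorem lam_union {T β : Finset (Sym2 V)} (hT : T ⊆ Eo U) (hβ : β ⊆ KE U) (j : ℕ) :
    lam j (T ∪ β) = ∑ S ∈ T.powerset, ghb β j S := by
  rw [lam_eq, sum_powerset_union (disj_Eo hT hβ)]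
  rfl

theorem lh_big {S B : Finset (Sym2 V)} {j : ℕ} (hS : j ≤ (vs S \ U).card) (hB : B ⊆ KE U)
    (hne : B ≠ ∅) : lh j (S ∪ B) = 0 := by
  obtain ⟨e, he⟩ := Finset.nonempty_iff_ne_empty.2 hne
  induction e with
  | _ a b =>
    obtain ⟨ha, hb, hab⟩ := mem_KE.1 (hB he)
    apply lh_zero
    have h1 : (vs S \ U) ∪ {a, b} ⊆ vs (S ∪ B) := by
      rw [vs_union]
      intro x hx
      rcases Finset.mem_union.1 hx with h2 | h2
      · exact Finset.mem_union_left _ (Finset.mem_sdiff.1 h2).1
      · apply Finset.mem_union_right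
        simp only [Finset.mem_insert, Finset.mem_singleton] at h2
        rcases h2 with rfl | rfl
        · exact mem_vs_left he
        · exact mem_vs_right he
    have h2 : Disjoint (vs S \ U) {a, b} := by
      rw [Finset.disjoint_left]
      intro x hx h3
      simp only [Finset.mem_insert, Finset.mem_singleton] at h3
      have := (Finset.mem_sdiff.1 hx).2
      rcases h3 with rfl | rfl
      · exact this ha
      · exact this hb
    have h3 := Finset.card_le_card h1
    rw [Finset.card_union_of_disjoint h2, Finset.card_pair hab] at h3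
    omega

theorem ghb_small {S β : Finset (Sym2 V)} {j : ℕ} (hS : j ≤ (vs S \ U).card) (hβ : β ⊆ KE U) :
    ghb β j S = lh j S := by
  unfold ghb
  rw [Finset.sum_eq_single ∅]
  · rw [Finset.union_empty]
  · intro B hB hne
    exact lh_big hS ((Finset.mem_powerset.1 hB).trans hβ) hne
  · intro h
    exact absurd (Finset.empty_mem_powerset β) h

theorem gh_zero {S α β : Finset (Sym2 V)} {j : ℕ} (hS : j ≤ (vs S \ U).card) (hα : α ⊆ KE U)
    (hβ : β ⊆ KE U) : gh α β j S = 0 := by
  unfold gh
  rw [ghb_small hS hα, ghb_small hS hβ, sub_self]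

/-! ### the top monomial -/

section top

variable {L q : ℕ} {v : Fin L → Fin q → V}

/-- all edges from `u`, `w` to the copy -/
def au (U : Finset V) (q : ℕ) (u w : V) : Finset (U × Fin q) :=
  univ.filter fun k => k.1.1 = u ∨ k.1.1 = w

theorem vs_Sla_sup (l : Fin L) (u w : V) (hu : u ∈ U) (hw : w ∈ U)
    (hq : 1 ≤ q) : (univ.image (v l)) ∪ {u, w} ⊆ vs (Sla U v l (au U q u w)) := by
  have hmem : ∀ (a : V) (ha : a ∈ U), (a = u ∨ a = w) → ∀ c,
      s(a, v l c) ∈ Sla U v l (au U q u w) := by
    intro a ha hau c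
    refine Finset.mem_union_right _ (Finset.mem_image.2 ⟨(⟨a, ha⟩, c), ?_, rfl⟩)
    exact Finset.mem_filter.2 ⟨Finset.mem_univ _, hau⟩
  intro x hx
  rcases Finset.mem_union.1 hx with h1 | h1
  · obtain ⟨c, _, rfl⟩ := Finset.mem_image.1 h1
    exact mem_vs_right (hmem u hu (Or.inl rfl) c)
  · simp only [Finset.mem_insert, Finset.mem_singleton] at h1
    rcases h1 with rfl | rfl
    · exact mem_vs_left (hmem x hu (Or.inl rfl) ⟨0, hq⟩)
    · exact mem_vs_left (hmem x hw (Or.inr rfl) ⟨0, hq⟩)

theorem card_image_v (h : GoodC U v) (l : Fin L) : (univ.image (v l)).card = q := by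
  rw [Finset.card_image_of_injective, Finset.card_univ, Fintype.card_fin]
  intro c c' hcc
  exact (h.inj _ _ _ _ hcc).2

theorem vs_Sla_out (h : GoodC U v) (l : Fin L) (u w : V) (hu : u ∈ U) (hw : w ∈ U)
    (hq : 1 ≤ q) : q ≤ (vs (Sla U v l (au U q u w)) \ U).card := by
  have h1 : univ.image (v l) ⊆ vs (Sla U v l (au U q u w)) \ U := by
    intro x hx
    refine Finset.mem_sdiff.2 ⟨vs_Sla_sup l u w hu hw hq (Finset.mem_union_left _ hx), ?_⟩
    obtain ⟨c, _, rfl⟩ := Finset.mem_image.1 hx
    exact h.out l c
  have h2 := Finset.card_le_card h1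
  rwa [card_image_v h l] at h2

theorem Sla_union (h : GoodC U v) (l : Fin L) {u w : V} (hu : u ∈ U) (hw : w ∈ U)
    (huw : u ≠ w) : Sla U v l (au U q u w) ∪ {s(u, w)} = KE (univ.image (v l) ∪ {u, w}) := by
  ext e
  induction e with
  | _ x y =>
    rw [mem_KE, Finset.mem_union, Finset.mem_singleton]
    constructor
    · rintro (h1 | h1)
      · rcases Finset.mem_union.1 h1 with h2 | h2
        · obtain ⟨i, _, h3⟩ := Finset.mem_image.1 h2
          unfold ep at h3
          have h4 := (en q i).2
          have h5 : v l (en q i).1.1 ≠ v l (en q i).1.2 := by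
            intro h6
            rw [(h.inj _ _ _ _ h6).2] at h4
            exact lt_irrefl _ h4
          rw [Sym2.eq_iff] at h3
          rcases h3 with ⟨rfl, rfl⟩ | ⟨rfl, rfl⟩
          · exact ⟨Finset.mem_union_left _ (Finset.mem_image_of_mem _ (Finset.mem_univ _)),
              Finset.mem_union_left _ (Finset.mem_image_of_mem _ (Finset.mem_univ _)), h5⟩
          · exact ⟨Finset.mem_union_left _ (Finset.mem_image_of_mem _ (Finset.mem_univ _)),
              Finset.mem_union_left _ (Finset.mem_image_of_mem _ (Finset.mem_univ _)), h5.symm⟩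
        · obtain ⟨k, hk, h3⟩ := Finset.mem_image.1 h2
          have hk2 := (Finset.mem_filter.1 hk).2
          have hk3 : k.1.1 ∈ univ.image (v l) ∪ {u, w} := by
            apply Finset.mem_union_right
            rw [Finset.mem_insert, Finset.mem_singleton]
            exact hk2
          have hk4 : v l k.2 ∈ univ.image (v l) ∪ {u, w} :=
            Finset.mem_union_left _ (Finset.mem_image_of_mem _ (Finset.mem_univ _))
          have hk5 : k.1.1 ≠ v l k.2 := fun h6 => h.out l k.2 (h6 ▸ k.1.2)
          unfold eu at h3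
          rw [Sym2.eq_iff] at h3
          rcases h3 with ⟨h6, h7⟩ | ⟨h6, h7⟩
          · rw [← h6, ← h7]; exact ⟨hk3, hk4, hk5⟩
          · rw [← h6, ← h7]; exact ⟨hk4, hk3, hk5.symm⟩
      · rw [Sym2.eq_iff] at h1
        have h2 : u ∈ univ.image (v l) ∪ {u, w} := by
          apply Finset.mem_union_right; simp
        have h3 : w ∈ univ.image (v l) ∪ {u, w} := by
          apply Finset.mem_union_right; simp
        rcases h1 with ⟨rfl, rfl⟩ | ⟨rfl, rfl⟩
        · exact ⟨h2, h3, huw⟩
        · exact ⟨h3, h2, huw.symm⟩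
    · rintro ⟨hx, hy, hxy⟩
      have key : ∀ (a : V), (a = u ∨ a = w) → ∀ c, s(a, v l c) ∈ Sla U v l (au U q u w) := by
        intro a hau c
        have ha : a ∈ U := by rcases hau with rfl | rfl <;> assumption
        refine Finset.mem_union_right _ (Finset.mem_image.2 ⟨(⟨a, ha⟩, c), ?_, rfl⟩)
        exact Finset.mem_filter.2 ⟨Finset.mem_univ _, hau⟩
      rcases Finset.mem_union.1 hx with h1 | h1
      · obtain ⟨c, _, rfl⟩ := Finset.mem_image.1 h1
        rcases Finset.mem_union.1 hy with h2 | h2
        · obtain ⟨c', _, rfl⟩ := Finset.mem_image.1 h2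
          have hcc : c ≠ c' := fun h3 => hxy (by rw [h3])
          obtain ⟨i, hi⟩ := exists_type hcc
          left
          refine Finset.mem_union_left _ (Finset.mem_image.2 ⟨i, Finset.mem_univ _, ?_⟩)
          unfold ep
          rcases hi with ⟨h10, h11⟩ | ⟨h10, h11⟩
          · rw [h10, h11]
          · rw [h10, h11, Sym2.eq_swap]
        · left
          rw [Sym2.eq_swap]
          refine key y ?_ c
          rwa [Finset.mem_insert, Finset.mem_singleton] at h2
      · rw [Finset.mem_insert, Finset.mem_singleton] at h1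
        rcases Finset.mem_union.1 hy with h2 | h2
        · obtain ⟨c', _, rfl⟩ := Finset.mem_image.1 h2
          left
          exact key x h1 c'
        · rw [Finset.mem_insert, Finset.mem_singleton] at h2
          right
          rcases h1 with rfl | rfl <;> rcases h2 with rfl | rfl
          · exact absurd rfl hxy
          · rfl
          · exact Sym2.eq_swap
          · exact absurd rfl hxy

theorem ghb_top (h : GoodC U v) (l : Fin L) {u w : V} (hu : u ∈ U) (hw : w ∈ U) (huw : u ≠ w)
    (hq : 1 ≤ q) {β : Finset (Sym2 V)} (hβ : β ⊆ KE U) :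
    ghb β (q + 1) (Sla U v l (au U q u w)) = lh (q + 1) (Sla U v l (au U q u w))
      + if s(u, w) ∈ β then lh (q + 1) (KE (univ.image (v l) ∪ {u, w})) else 0 := by
  classical
  set S := Sla U v l (au U q u w) with hS
  have hzero : ∀ B ⊆ β, B ≠ ∅ → B ≠ {s(u, w)} → lh (q + 1) (S ∪ B) = 0 := by
    intro B hB h1 h2
    -- some edge of `B` is different from `uw`
    obtain ⟨e, he, hne⟩ : ∃ e ∈ B, e ≠ s(u, w) := by
      by_contra h3
      push Not at h3
      apply h2
      ext e
      rw [Finset.mem_singleton]
      constructor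
      · exact h3 e
      · rintro rfl
        obtain ⟨e', he'⟩ := Finset.nonempty_iff_ne_empty.2 h1
        rw [← h3 e' he']; exact he'
    induction e with
    | _ a b =>
      obtain ⟨ha, hb, hab⟩ := mem_KE.1 (hβ (hB he))
      obtain ⟨x, hx, hxu, hxw, hxv⟩ : ∃ x, x ∈ U ∧ x ≠ u ∧ x ≠ w ∧ x ∈ vs B := by
        by_cases h4 : a = u ∨ a = w
        · refine ⟨b, hb, ?_, ?_, mem_vs_right he⟩
          · rintro rfl
            rcases h4 with h5 | h5
            · exact hab h5
            · exact hne (by rw [h5]; exact Sym2.eq_swap)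
          · rintro rfl
            rcases h4 with h5 | h5
            · exact hne (by rw [h5])
            · exact hab h5
        · push Not at h4
          exact ⟨a, ha, h4.1, h4.2, mem_vs_left he⟩
      apply lh_zero
      have h5 : insert x (univ.image (v l) ∪ {u, w}) ⊆ vs (S ∪ B) := by
        rw [vs_union]
        intro y hy
        rcases Finset.mem_insert.1 hy with rfl | hy
        · exact Finset.mem_union_right _ hxv
        · exact Finset.mem_union_left _ (vs_Sla_sup l u w hu hw hq hy)
      have h6 : (insert x (univ.image (v l) ∪ {u, w})).card = q + 3 := by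
        rw [Finset.card_insert_of_notMem, Finset.card_union_of_disjoint, card_image_v h l,
          Finset.card_pair huw]
        · rw [Finset.disjoint_left]
          intro y hy hy2
          obtain ⟨c, _, rfl⟩ := Finset.mem_image.1 hy
          rw [Finset.mem_insert, Finset.mem_singleton] at hy2
          rcases hy2 with h7 | h7
          · exact h.out l c (h7 ▸ hu)
          · exact h.out l c (h7 ▸ hw)
        · intro hy
          rcases Finset.mem_union.1 hy with h7 | h7
          · obtain ⟨c, _, rfl⟩ := Finset.mem_image.1 h7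
            exact h.out l c hx
          · rw [Finset.mem_insert, Finset.mem_singleton] at h7
            rcases h7 with h8 | h8
            · exact hxu h8
            · exact hxw h8
      have h7 := Finset.card_le_card h5
      omega
  unfold ghb
  have hne : (∅ : Finset (Sym2 V)) ≠ {s(u, w)} := (Finset.singleton_ne_empty _).symm
  by_cases hβ2 : s(u, w) ∈ β
  · rw [if_pos hβ2]
    have h1 : ({∅, {s(u, w)}} : Finset (Finset (Sym2 V))) ⊆ β.powerset := by
      intro B hB
      rw [Finset.mem_insert, Finset.mem_singleton] at hB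
      rw [Finset.mem_powerset]
      rcases hB with rfl | rfl
      · exact Finset.empty_subset _
      · exact Finset.singleton_subset_iff.2 hβ2
    rw [← Finset.sum_subset h1]
    · rw [Finset.sum_pair hne, Finset.union_empty, hS, Sla_union h l hu hw huw]
    · intro B hB hB2
      rw [Finset.mem_insert, Finset.mem_singleton] at hB2
      push Not at hB2
      exact hzero B (Finset.mem_powerset.1 hB) hB2.1.ne_empty hB2.2
  · rw [if_neg hβ2, add_zero, Finset.sum_eq_single ∅]
    · rw [Finset.union_empty]
    · intro B hB h1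
      refine hzero B (Finset.mem_powerset.1 hB) h1 ?_
      rintro rfl
      exact hβ2 (Finset.mem_powerset.1 hB (Finset.mem_singleton_self _))
    · intro h1
      exact absurd (Finset.empty_mem_powerset β) h1

theorem gh_top (h : GoodC U v) (l : Fin L) {u w : V} (hu : u ∈ U) (hw : w ∈ U) (huw : u ≠ w)
    (hq : 1 ≤ q) {α β : Finset (Sym2 V)} (hα : α ⊆ KE U) (hβ : β ⊆ KE U)
    (hab : ¬ (s(u, w) ∈ α ↔ s(u, w) ∈ β)) :
    gh α β (q + 1) (Sla U v l (au U q u w)) = ((q + 1 : ℕ) : ℤ)
      ∨ gh α β (q + 1) (Sla U v l (au U q u w)) = - ((q + 1 : ℕ) : ℤ) := by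
  have hcard : (univ.image (v l) ∪ {u, w}).card = q + 1 + 1 := by
    rw [Finset.card_union_of_disjoint, card_image_v h l, Finset.card_pair huw]
    rw [Finset.disjoint_left]
    intro y hy hy2
    obtain ⟨c, _, rfl⟩ := Finset.mem_image.1 hy
    rw [Finset.mem_insert, Finset.mem_singleton] at hy2
    rcases hy2 with h7 | h7
    · exact h.out l c (h7 ▸ hu)
    · exact h.out l c (h7 ▸ hw)
  have h1 := lh_KE hcard
  unfold gh
  rw [ghb_top h l hu hw huw hq hα, ghb_top h l hu hw huw hq hβ, h1]
  rcases neg_one_pow_eq_or ℤ (KE (univ.image (v l) ∪ {u, w})).card with h2 | h2 <;> rw [h2]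
  · by_cases h3 : s(u, w) ∈ α
    · have h4 : s(u, w) ∉ β := fun h5 => hab ⟨fun _ => h5, fun _ => h3⟩
      rw [if_pos h3, if_neg h4]
      right; ring
    · have h4 : s(u, w) ∈ β := by
        by_contra h5
        exact hab ⟨fun h6 => absurd h6 h3, fun h6 => absurd h6 h5⟩
      rw [if_neg h3, if_pos h4]
      left; ring
  · by_cases h3 : s(u, w) ∈ α
    · have h4 : s(u, w) ∉ β := fun h5 => hab ⟨fun _ => h5, fun _ => h3⟩
      rw [if_pos h3, if_neg h4]
      left; ring
    · have h4 : s(u, w) ∈ β := by
        by_contra h5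
        exact hab ⟨fun h6 => absurd h6 h3, fun h6 => absurd h6 h5⟩
      rw [if_neg h3, if_pos h4]
      right; ring

end top

end Pool.Agent.Lib_helper77.CP
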