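import Pool.Agent.Lib_helper77.CP.Pair

/-!
# MP_8a986b_co: the bound for two different graphs on `U`
-/

set_option autoImplicit false
set_option linter.unusedSectionVars false

open Finset

namespace Pool.Agent.Lib_helper77.CP

variable {V : Type} [Fintype V] [DecidableEq V] {U : Finset V}

theorem exists_copies {L q : ℕ} (h : L * q + U.card ≤ Fintype.card V) :
    ∃ v : Fin L → Fin q → V, GoodC U v := by
  classical
  have h1 : Fintype.card (Fin L × Fin q) ≤ Fintype.card {x // x ∉ U} := by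
    rw [Fintype.card_prod, Fintype.card_fin, Fintype.card_fin, Fintype.card_subtype_compl,
      Fintype.card_coe]
    omega
  obtain ⟨f⟩ := Function.Embedding.nonempty_of_card_le h1
  refine ⟨fun l c => (f (l, c)).1, fun l c l' c' hcc => ?_, fun l c => (f (l, c)).2⟩
  have h2 := f.injective (Subtype.ext hcc)
  exact ⟨congrArg Prod.fst h2, congrArg Prod.snd h2⟩

theorem np_le (q : ℕ) : np q ≤ q ^ 2 := by
  have h1 := Fintype.card_subtype_le (fun p : Fin q × Fin q => p.1 < p.2)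
  rw [Fintype.card_prod, Fintype.card_fin] at h1
  rw [pow_two]
  exact h1

/-- the size of the exponential sums -/
noncomputable def etaK (u K L m : ℕ) : ℝ :=
  Real.exp (-(4 * L / (2 ^ (u * (K + 1)) * 8 ^ ((K + 1) ^ 2) * (m : ℝ) ^ 2)))

theorem eta_bound {u K L m q : ℕ} (hm : 2 ≤ m) (hq : q ≤ K + 1) :
    (1 - 4 / (2 ^ (u * q) * 4 ^ np q * (m : ℝ) ^ 2)) ^ L ≤ etaK u K L m ^ (2 ^ np q) := by
  have hm0 : (0 : ℝ) < m := by exact_mod_cast (by omega : 0 < m)
  have hm2 : (2 : ℝ) ≤ m := by exact_mod_cast hm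
  set c : ℝ := 4 / (2 ^ (u * q) * 4 ^ np q * (m : ℝ) ^ 2) with hc
  have hden : (4 : ℝ) ≤ 2 ^ (u * q) * 4 ^ np q * (m : ℝ) ^ 2 := by
    have h1 : (1 : ℝ) ≤ 2 ^ (u * q) := one_le_pow₀ (by norm_num)
    have h2 : (1 : ℝ) ≤ 4 ^ np q := one_le_pow₀ (by norm_num)
    have h3 : (4 : ℝ) ≤ (m : ℝ) ^ 2 := by nlinarith
    have h4 : (1 : ℝ) ≤ 2 ^ (u * q) * 4 ^ np q := one_le_mul_of_one_le_of_one_le h1 h2
    nlinarith
  have hc1 : c ≤ 1 := (div_le_one (by linarith)).2 hden
  have h1 : (1 - c) ^ L ≤ Real.exp (-c) ^ L := by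
    refine pow_le_pow_left₀ (by linarith) ?_ L
    have := Real.add_one_le_exp (-c)
    linarith
  refine h1.trans ?_
  unfold etaK
  rw [← Real.exp_nat_mul, ← Real.exp_nat_mul, Real.exp_le_exp]
  have h2 : (2 : ℝ) ^ (u * q) * 8 ^ np q ≤ 2 ^ (u * (K + 1)) * 8 ^ ((K + 1) ^ 2) := by
    refine mul_le_mul ?_ ?_ (by positivity) (by positivity)
    · exact pow_le_pow_right₀ (by norm_num) (Nat.mul_le_mul_left u hq)
    · refine pow_le_pow_right₀ (by norm_num) ((np_le q).trans ?_)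
      exact Nat.pow_le_pow_left hq 2
  have h3 : ((2 ^ np q : ℕ) : ℝ) * (4 * L / (2 ^ (u * (K + 1)) * 8 ^ ((K + 1) ^ 2) * (m : ℝ) ^ 2))
      ≤ L * c := by
    push_cast
    rw [hc, ← mul_div_assoc, ← mul_div_assoc, div_le_div_iff₀ (by positivity) (by positivity)]
    have h4 : (8 : ℝ) ^ np q = 2 ^ np q * 4 ^ np q := by
      rw [← mul_pow]; norm_num
    have h5 : (0 : ℝ) ≤ 4 * L * (m : ℝ) ^ 2 := by positivity
    have h6 := mul_le_mul_of_nonneg_left h2 h5
    rw [h4] at h6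
    calc (2 : ℝ) ^ np q * (4 * L) * (2 ^ (u * q) * 4 ^ np q * (m : ℝ) ^ 2)
        = 4 * L * (m : ℝ) ^ 2 * (2 ^ (u * q) * (2 ^ np q * 4 ^ np q)) := by ring
      _ ≤ 4 * L * (m : ℝ) ^ 2 * (2 ^ (u * (K + 1)) * 8 ^ ((K + 1) ^ 2)) := h6
      _ = L * 4 * (2 ^ (u * (K + 1)) * 8 ^ ((K + 1) ^ 2) * (m : ℝ) ^ 2) := by ring
  linarith

theorem pair_bound {α β : Finset (Sym2 V)} (hα : α ⊆ KE U) (hβ : β ⊆ KE U) (hne : α ≠ β)
    {K L m : ℕ} (hm : m.Prime) (hmK : K + 2 < m) (hL : L * (K + 1) + U.card ≤ Fintype.card V) :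
    ((((Eo U).powerset.filter fun T => ∀ i : Fin K, lam (i + 3) (T ∪ β) = lam (i + 3) (T ∪ α)).card
      : ℕ) : ℝ) ≤ (Eo U).powerset.card * (((m : ℝ) ^ K)⁻¹ + etaK U.card K L m) := by
  classical
  have : NeZero m := ⟨hm.ne_zero⟩
  have : Fact m.Prime := ⟨hm⟩
  -- the edge in exactly one of the two graphs
  obtain ⟨u, w, hu, hw, huw, hab⟩ : ∃ u w, u ∈ U ∧ w ∈ U ∧ u ≠ w ∧
      ¬ (s(u, w) ∈ α ↔ s(u, w) ∈ β) := by
    by_contra h0
    push Not at h0
    apply hne
    ext e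
    induction e with
    | _ a b =>
      by_cases h1 : s(a, b) ∈ KE U
      · obtain ⟨ha, hb, hab⟩ := mem_KE.1 h1
        exact h0 a b ha hb hab
      · exact ⟨fun h2 => absurd (hα h2) h1, fun h2 => absurd (hβ h2) h1⟩
  let g : Fin K → Finset (Sym2 V) → ZMod m := fun i T =>
    ((lam (i + 3) (T ∪ β) - lam (i + 3) (T ∪ α) : ℤ) : ZMod m)
  have h1 : ((((Eo U).powerset.filter fun T => ∀ i : Fin K,
      lam (i + 3) (T ∪ β) = lam (i + 3) (T ∪ α)).card : ℕ) : ℝ)
      ≤ ((((Eo U).powerset.filter fun T => ∀ i, g i T = 0).card : ℕ) : ℝ) := by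
    have h2 : ((Eo U).powerset.filter fun T => ∀ i : Fin K,
        lam (i + 3) (T ∪ β) = lam (i + 3) (T ∪ α))
        ⊆ (Eo U).powerset.filter fun T => ∀ i, g i T = 0 := by
      intro T hT
      rw [Finset.mem_filter] at hT ⊢
      refine ⟨hT.1, fun i => ?_⟩
      show ((lam (i + 3) (T ∪ β) - lam (i + 3) (T ∪ α) : ℤ) : ZMod m) = 0
      rw [hT.2 i, sub_self, Int.cast_zero]
    exact_mod_cast Finset.card_le_card h2
  refine h1.trans (stat_bound (Eo U).powerset K g (Real.exp_pos _).le fun t ht => ?_)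
  -- the top index
  have hex : (univ.filter fun i => t i ≠ 0).Nonempty := by
    rw [Finset.filter_nonempty_iff]
    by_contra h2
    push Not at h2
    exact ht (funext fun i => h2 i (Finset.mem_univ i))
  obtain ⟨i0, hi0, hmax⟩ := Finset.exists_max_image _ (fun i : Fin K => i) hex
  have hti0 : t i0 ≠ 0 := (Finset.mem_filter.1 hi0).2
  have hgt : ∀ i, i0 < i → t i = 0 := by
    intro i hi
    by_contra h2
    exact absurd (hmax i (Finset.mem_filter.2 ⟨Finset.mem_univ _, h2⟩)) (not_le.2 hi)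
  set q : ℕ := i0 + 2 with hq
  have hq1 : q ≤ K + 1 := by have := i0.2; omega
  have hLq : L * q + U.card ≤ Fintype.card V := by
    have := Nat.mul_le_mul_left L hq1
    omega
  obtain ⟨v, hv⟩ := exists_copies hLq
  let Gh : Finset (Sym2 V) → ZMod m := fun S => ∑ i, t i * ((gh α β (i + 3) S : ℤ) : ZMod m)
  have hG : ∀ T ∈ (Eo U).powerset, ∑ i, t i * g i T = ∑ S ∈ T.powerset, Gh S := by
    intro T hT
    rw [Finset.mem_powerset] at hT
    show _ = ∑ S ∈ T.powerset, ∑ i, t i * ((gh α β (i + 3) S : ℤ) : ZMod m)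
    rw [Finset.sum_comm]
    refine Finset.sum_congr rfl fun i _ => ?_
    rw [← Finset.mul_sum]
    congr 1
    show ((lam (i + 3) (T ∪ β) - lam (i + 3) (T ∪ α) : ℤ) : ZMod m) = _
    rw [lam_union hT hβ, lam_union hT hα, ← Finset.sum_sub_distrib, Int.cast_sum]
    rfl
  rw [Finset.sum_congr rfl fun T hT => by rw [hG T hT]]
  refine exp_bound hm.two_le hv (by omega) ?_ ?_ (Real.exp_pos _).le (eta_bound hm.two_le hq1)
  · intro S hS hc
    show ∑ i, t i * ((gh α β (i + 3) S : ℤ) : ZMod m) = 0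
    refine Finset.sum_eq_zero fun i _ => ?_
    rcases lt_or_ge i0 i with hi | hi
    · rw [hgt i hi, zero_mul]
    · have hi' : (i : ℕ) ≤ i0 := hi
      rw [gh_zero (by omega) hα hβ, Int.cast_zero, mul_zero]
  · intro l
    refine ⟨au U q u w, ?_⟩
    show ∑ i, t i * ((gh α β (i + 3) (Sla U v l (au U q u w)) : ℤ) : ZMod m) ≠ 0
    rw [Finset.sum_eq_single i0]
    · have h3 : ((q + 1 : ℕ) : ZMod m) ≠ 0 := by
        intro h4
        rw [ZMod.natCast_eq_zero_iff] at h4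
        have := Nat.le_of_dvd (by omega) h4
        omega
      have h5 := gh_top hv l hu hw huw (by omega) hα hβ hab
      have h6 : (i0 : ℕ) + 3 = q + 1 := by omega
      rw [h6]
      rcases h5 with h5 | h5 <;> rw [h5]
      · push_cast
        push_cast at h3
        exact mul_ne_zero hti0 h3
      · push_cast
        push_cast at h3
        exact mul_ne_zero hti0 (neg_ne_zero.2 h3)
    · intro i _ hi
      rcases lt_or_ge i0 i with hi2 | hi2
      · rw [hgt i hi2, zero_mul]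
      · have hi3 : (i : ℕ) < i0 := lt_of_le_of_ne hi2 (fun h7 => hi (Fin.ext h7))
        have h8 := vs_Sla_out hv l u w hu hw (by omega)
        rw [gh_zero (by omega) hα hβ, Int.cast_zero, mul_zero]
    · intro h7
      exact absurd (Finset.mem_univ _) h7

end Pool.Agent.Lib_helper77.CP
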