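import Mathlib

/-!
# MP_8a986b_co, chromatic polynomials: the rank of a set of edges over the field with two elements
-/

set_option autoImplicit false
set_option linter.unusedSectionVars false

open Finset

namespace Pool.Agent.Lib_helper77.CP

variable {V : Type} [Fintype V] [DecidableEq V]

/-- The functions with values in `F_2` that are constant along the edges of `A`. -/
def W (A : Finset (Sym2 V)) : Submodule (ZMod 2) (V → ZMod 2) where
  carrier := {f | ∀ u v, s(u, v) ∈ A → f u = f v}
  add_mem' := by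
    intro f g hf hg u v h
    simp only [Pi.add_apply, hf u v h, hg u v h]
  zero_mem' := fun u v _ => rfl
  smul_mem' := by
    intro c f hf u v h
    simp only [Pi.smul_apply, hf u v h]

theorem mem_W {A : Finset (Sym2 V)} {f : V → ZMod 2} :
    f ∈ W A ↔ ∀ u v, s(u, v) ∈ A → f u = f v := Iff.rfl

/-- The dimension of `W A` (the number of components of the graph `A`). -/
noncomputable def cc (A : Finset (Sym2 V)) : ℕ := Module.finrank (ZMod 2) (W A)

/-- The rank of `A`. -/
noncomputable def rk (A : Finset (Sym2 V)) : ℕ := Fintype.card V - cc A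

theorem cc_le (A : Finset (Sym2 V)) : cc A ≤ Fintype.card V := by
  have h := Submodule.finrank_le (W A)
  rwa [Module.finrank_fintype_fun_eq_card] at h

theorem rk_le (A : Finset (Sym2 V)) : rk A ≤ Fintype.card V := Nat.sub_le _ _

theorem rk_add_cc (A : Finset (Sym2 V)) : rk A + cc A = Fintype.card V :=
  Nat.sub_add_cancel (cc_le A)

theorem W_union (A B : Finset (Sym2 V)) : W (A ∪ B) = W A ⊓ W B := by
  ext f
  simp only [mem_W, Submodule.mem_inf, Finset.mem_union]
  constructor
  · intro h
    exact ⟨fun u v h1 => h u v (Or.inl h1), fun u v h1 => h u v (Or.inr h1)⟩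
  · rintro ⟨h1, h2⟩ u v (h | h)
    · exact h1 u v h
    · exact h2 u v h

theorem W_empty : W (∅ : Finset (Sym2 V)) = ⊤ := by
  ext f; simp [mem_W]

theorem rk_empty : rk (∅ : Finset (Sym2 V)) = 0 := by
  have : cc (∅ : Finset (Sym2 V)) = Fintype.card V := by
    rw [cc, W_empty, finrank_top, Module.finrank_fintype_fun_eq_card]
  rw [rk, this, Nat.sub_self]

theorem rk_union_le (A B : Finset (Sym2 V)) : rk (A ∪ B) ≤ rk A + rk B := by
  have h := Submodule.finrank_sup_add_finrank_inf_eq (W A) (W B)
  rw [← W_union] at h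
  have h1 := Submodule.finrank_le (W A ⊔ W B)
  rw [Module.finrank_fintype_fun_eq_card] at h1
  have h2 := rk_add_cc A
  have h3 := rk_add_cc B
  have h4 := rk_add_cc (A ∪ B)
  unfold cc at h2 h3 h4
  omega

/-- The vertices touched by `A`. -/
def vs (A : Finset (Sym2 V)) : Finset V := univ.filter fun v => ∃ e ∈ A, v ∈ e

theorem mem_vs {A : Finset (Sym2 V)} {v : V} : v ∈ vs A ↔ ∃ e ∈ A, v ∈ e := by
  simp [vs]

theorem mem_vs_left {A : Finset (Sym2 V)} {u v : V} (h : s(u, v) ∈ A) : u ∈ vs A :=
  mem_vs.2 ⟨_, h, Sym2.mem_mk_left u v⟩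

theorem mem_vs_right {A : Finset (Sym2 V)} {u v : V} (h : s(u, v) ∈ A) : v ∈ vs A :=
  mem_vs.2 ⟨_, h, Sym2.mem_mk_right u v⟩

theorem vs_mono {A B : Finset (Sym2 V)} (h : A ⊆ B) : vs A ⊆ vs B := by
  intro v hv
  obtain ⟨e, he, hv⟩ := mem_vs.1 hv
  exact mem_vs.2 ⟨e, h he, hv⟩

theorem vs_union (A B : Finset (Sym2 V)) : vs (A ∪ B) = vs A ∪ vs B := by
  ext v
  simp only [mem_vs, Finset.mem_union]
  constructor
  · rintro ⟨e, he | he, hv⟩
    · exact Or.inl ⟨e, he, hv⟩
    · exact Or.inr ⟨e, he, hv⟩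
  · rintro (⟨e, he, hv⟩ | ⟨e, he, hv⟩)
    · exact ⟨e, Or.inl he, hv⟩
    · exact ⟨e, Or.inr he, hv⟩

theorem rk_disjoint {A B : Finset (Sym2 V)} (h : Disjoint (vs A) (vs B)) :
    rk (A ∪ B) = rk A + rk B := by
  have htop : W A ⊔ W B = ⊤ := by
    rw [eq_top_iff]
    intro f _
    rw [Submodule.mem_sup]
    refine ⟨fun w => if w ∈ vs A then 0 else f w, ?_, fun w => if w ∈ vs A then f w else 0, ?_, ?_⟩
    · intro u v huv
      simp only [mem_vs_left huv, mem_vs_right huv, if_true]
    · intro u v huv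
      have h1 : u ∉ vs A := fun h2 => Finset.disjoint_left.1 h h2 (mem_vs_left huv)
      have h2 : v ∉ vs A := fun h2 => Finset.disjoint_left.1 h h2 (mem_vs_right huv)
      simp only [h1, h2, if_false]
    · ext w
      simp only [Pi.add_apply]
      split_ifs <;> simp
  have h := Submodule.finrank_sup_add_finrank_inf_eq (W A) (W B)
  rw [← W_union, htop, finrank_top, Module.finrank_fintype_fun_eq_card] at h
  have h2 := rk_add_cc A
  have h3 := rk_add_cc B
  have h4 := rk_add_cc (A ∪ B)
  unfold cc at h2 h3 h4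
  omega

/-- The functions constant on `Y`. -/
def CY (Y : Finset V) : Submodule (ZMod 2) (V → ZMod 2) where
  carrier := {f | ∀ u ∈ Y, ∀ v ∈ Y, f u = f v}
  add_mem' := by
    intro f g hf hg u hu v hv
    simp only [Pi.add_apply, hf u hu v hv, hg u hu v hv]
  zero_mem' := fun u _ v _ => rfl
  smul_mem' := by
    intro c f hf u hu v hv
    simp only [Pi.smul_apply, hf u hu v hv]

theorem mem_CY {Y : Finset V} {f : V → ZMod 2} : f ∈ CY Y ↔ ∀ u ∈ Y, ∀ v ∈ Y, f u = f v := Iff.rfl

theorem finrank_CY {Y : Finset V} (hY : Y.Nonempty) :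
    Module.finrank (ZMod 2) (CY Y) + Y.card = Fintype.card V + 1 := by
  classical
  obtain ⟨y, hy⟩ := hY
  let e : CY Y ≃ₗ[ZMod 2] (Option {v // v ∉ Y} → ZMod 2) :=
    { toFun := fun f o => match o with
        | none => f.1 y
        | some v => f.1 v.1
      map_add' := by
        intro f g; ext o; cases o <;> rfl
      map_smul' := by
        intro c f; ext o; cases o <;> rfl
      invFun := fun g => ⟨fun w => if h : w ∈ Y then g none else g (some ⟨w, h⟩), by
        intro u hu v hv
        simp only [hu, hv, dif_pos]⟩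
      left_inv := by
        intro f
        ext w
        by_cases h : w ∈ Y
        · simp only [h, dif_pos]
          exact f.2 y hy w h
        · simp only [h, dif_neg, not_false_eq_true]
      right_inv := by
        intro g
        ext o
        cases o with
        | none => simp only [hy, dif_pos]
        | some v => simp only [v.2, dif_neg, not_false_eq_true] }
  have h1 := e.finrank_eq
  rw [Module.finrank_fintype_fun_eq_card, Fintype.card_option, Fintype.card_subtype_compl,
    Fintype.card_coe] at h1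
  have h2 : Y.card ≤ Fintype.card V := Finset.card_le_univ Y
  rw [h1]
  omega

/-- If the rank is small, then some function in `W A` is not constant on `Y`. -/
theorem exists_nonconst {A : Finset (Sym2 V)} {Y : Finset V} (h : rk A + 1 < Y.card) :
    ∃ f ∈ W A, ∃ u ∈ Y, ∃ v ∈ Y, f u ≠ f v := by
  by_contra h0
  push Not at h0
  have hY : Y.Nonempty := Finset.card_pos.1 (by omega)
  have hle : W A ≤ CY Y := fun f hf u hu v hv => h0 f hf u hu v hv
  have h1 := Submodule.finrank_mono hle
  have h2 := finrank_CY hY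
  have h3 := rk_add_cc A
  unfold cc at h3
  omega

/-- Edges inside `Y` have rank at most `|Y| - 1`. -/
theorem rk_le_of_vs {A : Finset (Sym2 V)} {Y : Finset V} (hY : Y.Nonempty) (h : vs A ⊆ Y) :
    rk A + 1 ≤ Y.card := by
  have hle : CY Y ≤ W A := fun f hf u v huv => hf u (h (mem_vs_left huv)) v (h (mem_vs_right huv))
  have h1 := Submodule.finrank_mono hle
  have h2 := finrank_CY hY
  have h3 := rk_add_cc A
  have h4 : Y.card ≤ Fintype.card V := Finset.card_le_univ Y
  unfold cc at h3
  omega

/-- If the rank is smaller than the number of touched vertices minus one, the edge set splits. -/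
theorem exists_split {S : Finset (Sym2 V)} (h : rk S + 1 < (vs S).card) :
    ∃ S1 S2 : Finset (Sym2 V), S1.Nonempty ∧ S2.Nonempty ∧ S1 ∪ S2 = S ∧
      Disjoint (vs S1) (vs S2) := by
  classical
  obtain ⟨f, hf, u, hu, v, hv, huv⟩ := exists_nonconst h
  have hcon : ∀ e ∈ S, ∀ a ∈ e, ∀ b ∈ e, f a = f b := by
    intro e
    induction e with
    | _ p q =>
      intro he a ha b hb
      have := hf p q he
      rw [Sym2.mem_iff] at ha hb
      rcases ha with rfl | rfl <;> rcases hb with rfl | rfl <;> simp [this]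
  refine ⟨S.filter (fun e => ∀ w ∈ e, f w = f u), S.filter (fun e => ¬ ∀ w ∈ e, f w = f u),
    ?_, ?_, Finset.filter_union_filter_not_eq _ _, ?_⟩
  · obtain ⟨e, he, hue⟩ := mem_vs.1 hu
    exact ⟨e, Finset.mem_filter.2 ⟨he, fun w hw => hcon e he w hw u hue⟩⟩
  · obtain ⟨e, he, hve⟩ := mem_vs.1 hv
    exact ⟨e, Finset.mem_filter.2 ⟨he, fun h1 => huv (h1 v hve).symm⟩⟩
  · rw [Finset.disjoint_left]
    intro w h1 h2
    obtain ⟨e1, he1, hw1⟩ := mem_vs.1 h1
    obtain ⟨e2, he2, hw2⟩ := mem_vs.1 h2
    rw [Finset.mem_filter] at he1 he2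
    apply he2.2
    intro w' hw'
    rw [hcon e2 he2.1 w' hw' w hw2]
    exact he1.2 w hw1

/-- If all pairs of `Y` are in `A ∪ B`, then `A` or `B` is connected on `Y`. -/
theorem rk_or {A B : Finset (Sym2 V)} {Y : Finset V}
    (h : ∀ u ∈ Y, ∀ v ∈ Y, u ≠ v → s(u, v) ∈ A ∪ B) : Y.card ≤ rk A + 1 ∨ Y.card ≤ rk B + 1 := by
  by_contra h0
  push Not at h0
  obtain ⟨f, hf, u, hu, v, hv, huv⟩ := exists_nonconst h0.1
  obtain ⟨g, hg, a, ha, b, hb, hab⟩ := exists_nonconst h0.2
  have key : ∀ p ∈ Y, ∀ q ∈ Y, f p ≠ f q → g p = g q := by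
    intro p hp q hq hpq
    have hne : p ≠ q := fun h1 => hpq (by rw [h1])
    rcases Finset.mem_union.1 (h p hp q hq hne) with h1 | h1
    · exact absurd (hf p q h1) hpq
    · exact hg p q h1
  -- g is constant on Y
  have hconst : ∀ p ∈ Y, g p = g u := by
    intro p hp
    by_cases h1 : f p = f u
    · have h2 : f p ≠ f v := fun h3 => huv (h1.symm.trans h3)
      rw [key p hp v hv h2, key u hu v hv huv]
    · exact key p hp u hu h1
  exact hab (by rw [hconst a ha, hconst b hb])

end Pool.Agent.Lib_helper77.CP
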